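import Pool.Agent.N976.AX.Def
import Pool.Agent.N976.SC.T1

/-!
# AX/A1: explicit axisymmetric building blocks (helper186)
-/

set_option autoImplicit false

namespace Pool.Agent.N976.AX.A1

open Set Filter Topology MeasureTheory
open scoped ContDiff
open Pool.Agent.N976.SC Pool.Agent.N976.SC.T1

/-- the square of the distance from the axis -/
noncomputable def r2 (y : E3) : ℝ := y 0 ^ 2 + y 1 ^ 2

/-- fields without swirl -/
noncomputable def PH (p f : ℝ → ℝ) (y : E3) : E3 :=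
  WithLp.toLp 2 ![p (r2 y) * deriv f (y 2) * y 0, p (r2 y) * deriv f (y 2) * y 1,
    -((2 * p (r2 y) + 2 * r2 y * deriv p (r2 y)) * f (y 2))]

/-- pure swirl -/
noncomputable def PS (a b : ℝ → ℝ) (y : E3) : E3 :=
  WithLp.toLp 2 ![-(a (r2 y) * b (y 2) * y 1), a (r2 y) * b (y 2) * y 0, 0]

theorem r2_smooth : ContDiff ℝ ∞ r2 := ((co 0).pow 2).add ((co 1).pow 2)

theorem r2_rot (α : ℝ) (y : E3) : r2 (rot α y) = r2 y := by
  have h := Real.sin_sq_add_cos_sq α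
  simp only [r2, rot]
  simp
  linear_combination (y 0 ^ 2 + y 1 ^ 2) * h

theorem r2_neg (y : E3) : r2 (-y) = r2 y := by
  simp [r2]

theorem r2_nonneg (y : E3) : 0 ≤ r2 y := by unfold r2; positivity

theorem norm_r2 (y : E3) : ‖y‖ ^ 2 = r2 y + y 2 ^ 2 := by rw [nsq]; rfl

theorem PH_smooth {p f : ℝ → ℝ} (hp : ContDiff ℝ ∞ p) (hf : ContDiff ℝ ∞ f) :
    ContDiff ℝ ∞ (PH p f) := by
  rw [contDiff_euclidean]
  intro i
  fin_cases i
  · exact (((hp.comp r2_smooth).mul ((sm_deriv hf).comp (co 2))).mul (co 0))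
  · exact (((hp.comp r2_smooth).mul ((sm_deriv hf).comp (co 2))).mul (co 1))
  · exact (((contDiff_const.mul (hp.comp r2_smooth)).add
      ((contDiff_const.mul r2_smooth).mul ((sm_deriv hp).comp r2_smooth))).mul
      (hf.comp (co 2))).neg

theorem PS_smooth {a b : ℝ → ℝ} (ha : ContDiff ℝ ∞ a) (hb : ContDiff ℝ ∞ b) :
    ContDiff ℝ ∞ (PS a b) := by
  rw [contDiff_euclidean]
  intro i
  fin_cases i
  · exact (((ha.comp r2_smooth).mul (hb.comp (co 2))).mul (co 1)).neg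
  · exact ((ha.comp r2_smooth).mul (hb.comp (co 2))).mul (co 0)
  · exact contDiff_const

theorem rad {p : ℝ → ℝ} (hp : ContDiff ℝ ∞ p) (x c : ℝ) :
    HasDerivAt (fun t : ℝ => p ((x + t) ^ 2 + c)) (deriv p (x ^ 2 + c) * (2 * x)) 0 := by
  have h1 : HasDerivAt p (deriv p (x ^ 2 + c)) ((x + 0) ^ 2 + c) := by
    rw [add_zero]
    exact (hp.differentiable (by simp) _).hasDerivAt
  have h2 : HasDerivAt (fun t : ℝ => (x + t) ^ 2 + c) (2 * x) 0 := by
    have h3 : HasDerivAt (fun t : ℝ => x + t) 1 0 := by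
      simpa using (hasDerivAt_id (0 : ℝ)).const_add x
    have h4 := (h3.pow 2).add_const c
    simpa using h4
  exact h1.comp 0 h2

theorem rad' {p : ℝ → ℝ} (hp : ContDiff ℝ ∞ p) (x c : ℝ) :
    HasDerivAt (fun t : ℝ => p (c + (x + t) ^ 2)) (deriv p (c + x ^ 2) * (2 * x)) 0 := by
  have h := rad hp x c
  simp only [add_comm _ c] at h
  exact h

theorem lin1 (x : ℝ) : HasDerivAt (fun t : ℝ => x + t) 1 0 := by
  simpa using (hasDerivAt_id (0 : ℝ)).const_add x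

theorem PH_div {p f : ℝ → ℝ} (hp : ContDiff ℝ ∞ p) (hf : ContDiff ℝ ∞ f) (y : E3) :
    divg (PH p f) y = 0 := by
  have hd : DifferentiableAt ℝ (PH p f) y := (PH_smooth hp hf).differentiable (by simp) y
  unfold divg
  rw [Fin.sum_univ_three]
  have e0 : (fderiv ℝ (PH p f) y (bv 0)) 0 =
      deriv p (r2 y) * (2 * y 0) * deriv f (y 2) * y 0 + p (r2 y) * deriv f (y 2) := by
    refine (comp_deriv hd 0).unique ?_
    have e : (fun t : ℝ => PH p f (y + t • bv 0) 0) =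
        fun t => p ((y 0 + t) ^ 2 + y 1 ^ 2) * deriv f (y 2) * (y 0 + t) := by
      funext t
      simp [PH, bv, r2]
    rw [e]
    have h := ((rad hp (y 0) (y 1 ^ 2)).mul_const (deriv f (y 2))).mul (lin1 (y 0))
    refine h.congr_deriv ?_
    simp [r2]
  have e1 : (fderiv ℝ (PH p f) y (bv 1)) 1 =
      deriv p (r2 y) * (2 * y 1) * deriv f (y 2) * y 1 + p (r2 y) * deriv f (y 2) := by
    refine (comp_deriv hd 1).unique ?_
    have e : (fun t : ℝ => PH p f (y + t • bv 1) 1) =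
        fun t => p (y 0 ^ 2 + (y 1 + t) ^ 2) * deriv f (y 2) * (y 1 + t) := by
      funext t
      simp [PH, bv, r2]
    rw [e]
    have h := ((rad' hp (y 1) (y 0 ^ 2)).mul_const (deriv f (y 2))).mul (lin1 (y 1))
    refine h.congr_deriv ?_
    simp [r2]
  have e2 : (fderiv ℝ (PH p f) y (bv 2)) 2 =
      -((2 * p (r2 y) + 2 * r2 y * deriv p (r2 y)) * deriv f (y 2)) := by
    refine (comp_deriv hd 2).unique ?_
    have e : (fun t : ℝ => PH p f (y + t • bv 2) 2) =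
        fun t => -((2 * p (r2 y) + 2 * r2 y * deriv p (r2 y)) * f (y 2 + t)) := by
      funext t
      simp [PH, bv, r2]
    rw [e]
    exact ((shift hf (y 2)).const_mul _).neg
  rw [e0, e1, e2]
  simp only [r2]
  ring

theorem PS_div {a b : ℝ → ℝ} (ha : ContDiff ℝ ∞ a) (hb : ContDiff ℝ ∞ b) (y : E3) :
    divg (PS a b) y = 0 := by
  have hd : DifferentiableAt ℝ (PS a b) y := (PS_smooth ha hb).differentiable (by simp) y
  unfold divg
  rw [Fin.sum_univ_three]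
  have e0 : (fderiv ℝ (PS a b) y (bv 0)) 0 =
      -(deriv a (r2 y) * (2 * y 0) * b (y 2) * y 1) := by
    refine (comp_deriv hd 0).unique ?_
    have e : (fun t : ℝ => PS a b (y + t • bv 0) 0) =
        fun t => -(a ((y 0 + t) ^ 2 + y 1 ^ 2) * b (y 2) * y 1) := by
      funext t
      simp [PS, bv, r2]
    rw [e]
    exact (((rad ha (y 0) (y 1 ^ 2)).mul_const (b (y 2))).mul_const (y 1)).neg
  have e1 : (fderiv ℝ (PS a b) y (bv 1)) 1 =
      deriv a (r2 y) * (2 * y 1) * b (y 2) * y 0 := by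
    refine (comp_deriv hd 1).unique ?_
    have e : (fun t : ℝ => PS a b (y + t • bv 1) 1) =
        fun t => a (y 0 ^ 2 + (y 1 + t) ^ 2) * b (y 2) * y 0 := by
      funext t
      simp [PS, bv, r2]
    rw [e]
    exact ((rad' ha (y 1) (y 0 ^ 2)).mul_const (b (y 2))).mul_const (y 0)
  have e2 : (fderiv ℝ (PS a b) y (bv 2)) 2 = 0 := by
    refine (comp_deriv hd 2).unique ?_
    have e : (fun t : ℝ => PS a b (y + t • bv 2) 2) = fun t => 0 := by
      funext t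
      simp [PS]
    rw [e]
    exact hasDerivAt_const _ _
  rw [e0, e1, e2]
  ring

theorem PH_axi (p f : ℝ → ℝ) : Axi (PH p f) := by
  intro α y
  have h2 : (rot α y) 2 = y 2 := by simp [rot]
  have h0 : (rot α y) 0 = Real.cos α * y 0 - Real.sin α * y 1 := by simp [rot]
  have h1 : (rot α y) 1 = Real.sin α * y 0 + Real.cos α * y 1 := by simp [rot]
  have hr := r2_rot α y
  ext i
  fin_cases i
  · simp only [PH, hr, h2, h0]
    simp [rot]
    ring
  · simp only [PH, hr, h2, h1]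
    simp [rot]
    ring
  · simp only [PH, hr, h2]
    simp [rot]

theorem PS_axi (a b : ℝ → ℝ) : Axi (PS a b) := by
  intro α y
  have h2 : (rot α y) 2 = y 2 := by simp [rot]
  have h0 : (rot α y) 0 = Real.cos α * y 0 - Real.sin α * y 1 := by simp [rot]
  have h1 : (rot α y) 1 = Real.sin α * y 0 + Real.cos α * y 1 := by simp [rot]
  have hr := r2_rot α y
  ext i
  fin_cases i
  · simp only [PS, hr, h2, h1]
    simp [rot]
    ring
  · simp only [PS, hr, h2, h0]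
    simp [rot]
    ring
  · simp only [PS]
    simp [rot]

/-- Fubini -/
theorem int_split (F g : ℝ → ℝ) :
    ∫ y : E3, F (r2 y) * g (y 2) =
      (∫ v : Fin 2 → ℝ, F (v 0 ^ 2 + v 1 ^ 2)) * ∫ s, g s := by
  rw [← (PiLp.volume_preserving_toLp (Fin 3)).integral_comp
    (MeasurableEquiv.toLp 2 _).measurableEmbedding]
  have h1 := (volume_preserving_piFinSuccAbove (fun _ : Fin 3 => ℝ) 2).symm
  rw [← h1.integral_comp (MeasurableEquiv.measurableEmbedding _)]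
  rw [mul_comm, ← integral_prod_mul g (fun v : Fin 2 → ℝ => F (v 0 ^ 2 + v 1 ^ 2))]
  refine integral_congr_ae (Eventually.of_forall fun z => ?_)
  have a0 : ((MeasurableEquiv.piFinSuccAbove (fun _ : Fin 3 => ℝ) 2).symm z) 0 = z.2 0 := rfl
  have a1 : ((MeasurableEquiv.piFinSuccAbove (fun _ : Fin 3 => ℝ) 2).symm z) 1 = z.2 1 := rfl
  have a2 : ((MeasurableEquiv.piFinSuccAbove (fun _ : Fin 3 => ℝ) 2).symm z) 2 = z.1 := rfl
  simp only [r2]
  rw [a0, a1, a2, mul_comm]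

/-- scaling in the plane -/
theorem int_scale (F : ℝ → ℝ) {R : ℝ} (hR : 0 < R) :
    ∫ v : Fin 2 → ℝ, F (R ^ 2 * (v 0 ^ 2 + v 1 ^ 2)) =
      (R ^ 2)⁻¹ * ∫ v : Fin 2 → ℝ, F (v 0 ^ 2 + v 1 ^ 2) := by
  have h := Measure.integral_comp_smul (volume : Measure (Fin 2 → ℝ))
    (fun v : Fin 2 → ℝ => F (v 0 ^ 2 + v 1 ^ 2)) R
  rw [Module.finrank_fin_fun, abs_of_pos (by positivity), smul_eq_mul] at h
  rw [← h]
  refine integral_congr_ae (Eventually.of_forall fun v => ?_)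
  simp only [Pi.smul_apply, smul_eq_mul]
  congr 1
  ring

noncomputable def kc : ContDiffBump (0 : ℝ) := ⟨1 / 4, 1, by norm_num, by norm_num⟩

/-- the radial profile -/
noncomputable def pr (R : ℝ) (s : ℝ) : ℝ := kc (R ^ 2 * s)

theorem pr_smooth (R : ℝ) : ContDiff ℝ ∞ (pr R) :=
  kc.contDiff.comp (contDiff_const.mul contDiff_id)

theorem pr_deriv (R s : ℝ) : deriv (pr R) s = R ^ 2 * deriv kc (R ^ 2 * s) := by
  have h1 : HasDerivAt kc (deriv kc (R ^ 2 * s)) (R ^ 2 * s) :=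
    ((kc.contDiff (n := ⊤)).differentiable (by simp) _).hasDerivAt
  have h2 : HasDerivAt (fun s : ℝ => R ^ 2 * s) (R ^ 2) s := by
    simpa using (hasDerivAt_id s).const_mul (R ^ 2)
  have h3 := h1.comp s h2
  have h4 : deriv (pr R) s = deriv kc (R ^ 2 * s) * R ^ 2 := h3.deriv
  rw [h4]; ring

theorem kc_deriv_zero {s : ℝ} (hs : 1 < |s|) : deriv kc s = 0 := by
  have h1 : (kc : ℝ → ℝ) =ᶠ[𝓝 s] fun _ => 0 := by
    have h2 : {x : ℝ | 1 < |x|} ∈ 𝓝 s := (isOpen_lt continuous_const continuous_abs).mem_nhds hs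
    filter_upwards [h2] with x hx
    exact zero_of kc (le_of_lt hx)
  rw [h1.deriv_eq, deriv_const]

theorem kc_deriv_in {s : ℝ} (hs : |s| < 1 / 4) : deriv kc s = 0 := by
  have h1 : (kc : ℝ → ℝ) =ᶠ[𝓝 s] fun _ => 1 := by
    have h2 : {x : ℝ | |x| < 1 / 4} ∈ 𝓝 s := (isOpen_lt continuous_abs continuous_const).mem_nhds hs
    filter_upwards [h2] with x hx
    exact one_of kc (le_of_lt hx)
  rw [h1.deriv_eq, deriv_const]

/-- the profile of the third component -/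
noncomputable def w0 (s : ℝ) : ℝ := 2 * kc s + 2 * s * deriv kc s

theorem w0_out {s : ℝ} (hs : 1 < s) : w0 s = 0 := by
  have h1 : 1 < |s| := lt_of_lt_of_le hs (le_abs_self s)
  unfold w0
  rw [kc_deriv_zero h1, zero_of kc h1.le]
  ring

theorem w0_cont : Continuous w0 :=
  (continuous_const.mul kc.continuous).add
    ((continuous_const.mul continuous_id).mul (sm_deriv kc.contDiff).continuous)

theorem w0_pr (R s : ℝ) : 2 * pr R s + 2 * s * deriv (pr R) s = w0 (R ^ 2 * s) := by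
  rw [pr_deriv]
  unfold w0 pr
  ring

theorem cs2 {F : ℝ → ℝ} (h : ∀ s, 1 < s → F s = 0) :
    HasCompactSupport (fun v : Fin 2 → ℝ => F (v 0 ^ 2 + v 1 ^ 2)) := by
  refine HasCompactSupport.intro (isCompact_closedBall (0 : Fin 2 → ℝ) 1) fun v hv => ?_
  apply h
  rw [mem_closedBall_zero_iff, not_le] at hv
  by_contra hcon
  push Not at hcon
  have hle : ‖v‖ ≤ 1 := by
    rw [pi_norm_le_iff_of_nonneg (by norm_num)]
    intro i
    rw [Real.norm_eq_abs]
    have h0 : v i ^ 2 ≤ 1 := by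
      fin_cases i
      · have := sq_nonneg (v 1)
        simp only [Fin.zero_eta]
        linarith
      · have := sq_nonneg (v 0)
        simp only [Fin.mk_one]
        linarith
    exact abs_le_one_iff_mul_self_le_one.2 (by nlinarith)
  linarith

theorem c1pos : 0 < ∫ v : Fin 2 → ℝ, w0 (v 0 ^ 2 + v 1 ^ 2) ^ 2 := by
  refine Continuous.integral_pos_of_hasCompactSupport_nonneg_nonzero (x := 0)
    ((w0_cont.comp (((continuous_apply 0).pow 2).add ((continuous_apply 1).pow 2))).pow 2)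
    (cs2 (F := fun s => w0 s ^ 2) (fun s hs => by simp only [w0_out hs]; norm_num))
    (fun v => sq_nonneg _) ?_
  have h0 : w0 (((0 : Fin 2 → ℝ) 0) ^ 2 + ((0 : Fin 2 → ℝ) 1) ^ 2) = 2 := by
    have h1 : ((0 : Fin 2 → ℝ) 0) ^ 2 + ((0 : Fin 2 → ℝ) 1) ^ 2 = 0 := by simp
    rw [h1]
    unfold w0
    rw [one_of kc (by rw [abs_zero]; exact kc.rIn_pos.le)]
    ring
  have h2 : w0 (((0 : Fin 2 → ℝ) 0) ^ 2 + ((0 : Fin 2 → ℝ) 1) ^ 2) ^ 2 ≠ 0 := by
    rw [h0]; norm_num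
  exact h2

theorem PH_zero {p f : ℝ → ℝ} {y : E3} (h : (p (r2 y) = 0 ∧ deriv p (r2 y) = 0) ∨
    (f (y 2) = 0 ∧ deriv f (y 2) = 0)) : PH p f y = 0 := by
  ext i
  rcases h with ⟨h1, h2⟩ | ⟨h1, h2⟩
  · fin_cases i <;> simp [PH, h1, h2]
  · fin_cases i <;> simp [PH, h1, h2]

theorem PH_out {R : ℝ} (hR : 5 ≤ R) {y : E3} (hy : 1 / 2 ≤ ‖y‖) : PH (pr R) ff y = 0 := by
  apply PH_zero
  by_cases h : 1 < R ^ 2 * r2 y
  · left
    have h1 : 1 < |R ^ 2 * r2 y| := lt_of_lt_of_le h (le_abs_self _)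
    rw [pr_deriv, kc_deriv_zero h1]
    unfold pr
    rw [zero_of kc h1.le]
    simp
  · right
    push Not at h
    have h1 : r2 y ≤ 1 / 25 := by
      have h2 : 25 * r2 y ≤ R ^ 2 * r2 y := by
        have := r2_nonneg y
        gcongr
        nlinarith
      linarith
    have h3 : (1 / 2 : ℝ) ^ 2 ≤ ‖y‖ ^ 2 := by gcongr
    rw [norm_r2] at h3
    have h4 : (1 / 5 : ℝ) < |y 2| := by
      by_contra hcon
      push Not at hcon
      have h5 : y 2 ^ 2 ≤ (1 / 5 : ℝ) ^ 2 := by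
        rw [← sq_abs]; gcongr
      norm_num at h3 h5
      linarith
    exact ⟨ff_q.out _ h4.le, ff_q.dout h4⟩

theorem PH_lin {R : ℝ} (hR : 5 ≤ R) {y : E3} (hy : ‖y‖ < 1 / (2 * R)) :
    PH (pr R) ff y = AX.Am y := by
  have hR0 : 0 < R := by linarith
  have h1 : R * ‖y‖ < 1 / 2 := by
    rw [lt_div_iff₀ (by positivity)] at hy
    linarith
  have h0 : 0 ≤ R * ‖y‖ := by positivity
  have h2 : R ^ 2 * r2 y < 1 / 4 := by
    have h3 : r2 y ≤ ‖y‖ ^ 2 := by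
      rw [norm_r2]
      have := sq_nonneg (y 2)
      linarith
    calc R ^ 2 * r2 y ≤ R ^ 2 * ‖y‖ ^ 2 := by gcongr
      _ = (R * ‖y‖) ^ 2 := by ring
      _ < 1 / 4 := by nlinarith
  have h2' : |R ^ 2 * r2 y| < 1 / 4 := by
    rw [abs_of_nonneg (mul_nonneg (sq_nonneg _) (r2_nonneg y))]; exact h2
  have h4 : |y 2| < 1 / 10 := by
    refine (abs_le_norm y 2).trans_lt (hy.trans_le ?_)
    rw [div_le_div_iff₀ (by positivity) (by norm_num)]
    linarith
  have e1 : pr R (r2 y) = 1 := one_of kc h2'.le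
  have e2 : deriv (pr R) (r2 y) = 0 := by rw [pr_deriv, kc_deriv_in h2', mul_zero]
  have e3 : deriv ff (y 2) = 1 := ff_deriv h4
  have e4 : ff (y 2) = y 2 := ff_in h4.le
  unfold PH AX.Am
  rw [e1, e2, e3, e4]
  ext i
  fin_cases i <;> simp

theorem cs3 {F g : ℝ → ℝ} {C B : ℝ} (hC : 0 ≤ C) (hB : 0 ≤ B) (h1 : ∀ s, C < s → F s = 0)
    (h2 : ∀ z, B < |z| → g z = 0) : HasCompactSupport (fun y : E3 => F (r2 y) * g (y 2)) := by
  refine HasCompactSupport.intro (isCompact_closedBall (0 : E3) (C + B + 1)) fun y hy => ?_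
  rw [mem_closedBall_zero_iff, not_le] at hy
  by_cases h : C < r2 y
  · simp only [h1 _ h, zero_mul]
  · push Not at h
    have h3 : B < |y 2| := by
      by_contra hcon
      push Not at hcon
      have h4 : y 2 ^ 2 ≤ B ^ 2 := by rw [← sq_abs]; gcongr
      have h5 : (C + B + 1) ^ 2 < ‖y‖ ^ 2 := by gcongr
      rw [norm_r2] at h5
      nlinarith
    simp only [h2 _ h3, mul_zero]

theorem integ3 {F g : ℝ → ℝ} {C B : ℝ} (hC : 0 ≤ C) (hB : 0 ≤ B) (hF : Continuous F)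
    (hg : Continuous g) (h1 : ∀ s, C < s → F s = 0)
    (h2 : ∀ z, B < |z| → g z = 0) : Integrable (fun y : E3 => F (r2 y) * g (y 2)) :=
  ((hF.comp r2_smooth.continuous).mul (hg.comp (co 2).continuous)).integrable_of_hasCompactSupport
    (cs3 hC hB h1 h2)

theorem PH_ip {R : ℝ} (hR : 0 < R) :
    -ip (fun y => AX.Am (PH (pr R) ff y)) (PH (pr R) ff) =
      2 * ((R ^ 2)⁻¹ * (∫ v : Fin 2 → ℝ, w0 (v 0 ^ 2 + v 1 ^ 2) ^ 2)) * (∫ s, ff s ^ 2) -
      ((R ^ 2)⁻¹ * ((R ^ 2)⁻¹ * (∫ v : Fin 2 → ℝ, kc (v 0 ^ 2 + v 1 ^ 2) ^ 2 *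
        (v 0 ^ 2 + v 1 ^ 2)))) * (∫ s, deriv ff s ^ 2) := by
  set F1 : ℝ → ℝ := fun s => (R ^ 2)⁻¹ * (kc (R ^ 2 * s) ^ 2 * (R ^ 2 * s)) with hF1
  set F2 : ℝ → ℝ := fun s => 2 * w0 (R ^ 2 * s) ^ 2 with hF2
  set g1 : ℝ → ℝ := fun z => deriv ff z ^ 2 with hg1
  set g2 : ℝ → ℝ := fun z => ff z ^ 2 with hg2
  have hR2 : 0 < R ^ 2 := by positivity
  have key : ∀ y : E3, inner ℝ (AX.Am (PH (pr R) ff y)) (PH (pr R) ff y) =
      F1 (r2 y) * g1 (y 2) - F2 (r2 y) * g2 (y 2) := by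
    intro y
    simp only [PiLp.inner_apply, Fin.sum_univ_three, RCLike.inner_apply, conj_trivial]
    simp only [AX.Am, PH, w0_pr, hF1, hF2, hg1, hg2]
    simp [pr]
    have : r2 y = y 0 ^ 2 + y 1 ^ 2 := rfl
    rw [this]
    field_simp
    ring
  have hout : ∀ s, (R ^ 2)⁻¹ < s → 1 < R ^ 2 * s := by
    intro s hs
    have := (inv_lt_iff_one_lt_mul₀' hR2).1 hs
    exact this
  have hc : Continuous (fun s : ℝ => R ^ 2 * s) := continuous_const.mul continuous_id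
  have i1 : Integrable (fun y : E3 => F1 (r2 y) * g1 (y 2)) := by
    refine integ3 (C := (R ^ 2)⁻¹) (B := 1 / 5) (by positivity) (by norm_num) ?_ ?_ ?_ ?_
    · exact continuous_const.mul (((kc.continuous.comp hc).pow 2).mul hc)
    · exact (sm_deriv ff_q.sm).continuous.pow 2
    · intro s hs
      have h1 := hout s hs
      simp only [hF1]
      rw [zero_of kc (le_of_lt (lt_of_lt_of_le h1 (le_abs_self _)))]
      ring
    · intro z hz
      simp only [hg1]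
      rw [ff_q.dout hz]
      ring
  have i2 : Integrable (fun y : E3 => F2 (r2 y) * g2 (y 2)) := by
    refine integ3 (C := (R ^ 2)⁻¹) (B := 1 / 5) (by positivity) (by norm_num) ?_ ?_ ?_ ?_
    · exact continuous_const.mul ((w0_cont.comp hc).pow 2)
    · exact ff_q.sm.continuous.pow 2
    · intro s hs
      have h1 := hout s hs
      simp only [hF2]
      rw [w0_out h1]
      ring
    · intro z hz
      simp only [hg2]
      rw [ff_q.out _ hz.le]
      ring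
  unfold ip
  simp only [key]
  rw [integral_sub i1 i2, int_split F1 g1, int_split F2 g2]
  simp only [hF1, hF2]
  rw [integral_const_mul, integral_const_mul,
    int_scale (fun s => kc s ^ 2 * s) hR, int_scale (fun s => w0 s ^ 2) hR]
  ring

/-- the radial profile of the swirl -/
noncomputable def ar (ρ : ℝ) (s : ℝ) : ℝ := k2 ((ρ ^ 2)⁻¹ * s) - k1 ((ρ ^ 2)⁻¹ * s)

noncomputable def br (ρ : ℝ) (s : ℝ) : ℝ := pp (ρ⁻¹ * s)

theorem ar_smooth (ρ : ℝ) : ContDiff ℝ ∞ (ar ρ) :=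
  (k2.contDiff.comp (contDiff_const.mul contDiff_id)).sub
    (k1.contDiff.comp (contDiff_const.mul contDiff_id))

theorem br_smooth (ρ : ℝ) : ContDiff ℝ ∞ (br ρ) :=
  pp_q.sm.comp (contDiff_const.mul contDiff_id)

theorem PS_zero {a b : ℝ → ℝ} {y : E3} (h : a (r2 y) = 0 ∨ b (y 2) = 0) : PS a b y = 0 := by
  ext i
  rcases h with h | h
  · fin_cases i <;> simp [PS, h]
  · fin_cases i <;> simp [PS, h]

theorem ar_out {ρ s : ℝ} (hρ : 0 < ρ) (hs : ρ ^ 2 / 8 ≤ s) : ar ρ s = 0 := by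
  have h0 : 0 < ρ ^ 2 := by positivity
  have h1 : 1 / 8 ≤ (ρ ^ 2)⁻¹ * s := by
    calc (1 : ℝ) / 8 = (ρ ^ 2)⁻¹ * (ρ ^ 2 / 8) := by field_simp
      _ ≤ (ρ ^ 2)⁻¹ * s := by gcongr
  have h2 : 1 / 8 ≤ |(ρ ^ 2)⁻¹ * s| := h1.trans (le_abs_self _)
  unfold ar
  rw [zero_of k2 (le_trans (by norm_num [k2]) h2), zero_of k1 (le_trans (by norm_num [k1]) h2),
    sub_self]

theorem ar_in {ρ s : ℝ} (hρ : 0 < ρ) (h0 : 0 ≤ s) (hs : s ≤ ρ ^ 2 / 100) : ar ρ s = 0 := by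
  have h1 : |(ρ ^ 2)⁻¹ * s| ≤ 1 / 100 := by
    rw [abs_of_nonneg (by positivity)]
    calc (ρ ^ 2)⁻¹ * s ≤ (ρ ^ 2)⁻¹ * (ρ ^ 2 / 100) := by gcongr
      _ = 1 / 100 := by field_simp
  unfold ar
  rw [one_of k2 (h1.trans (by norm_num [k2])), one_of k1 (h1.trans (by norm_num [k1])), sub_self]

theorem br_out {ρ z : ℝ} (hρ : 0 < ρ) (hz : ρ / 10 ≤ |z|) : br ρ z = 0 := by
  unfold br
  apply pp_q.out
  rw [abs_mul, abs_of_pos (inv_pos.2 hρ)]
  calc (1 : ℝ) / 30 ≤ ρ⁻¹ * (ρ / 10) := by field_simp; norm_num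
    _ ≤ ρ⁻¹ * |z| := by gcongr

/-- a point where the swirl does not vanish -/
noncomputable def pt (ρ : ℝ) : E3 := WithLp.toLp 2 ![ρ * √(1 / 40), 0, ρ / 40]

theorem pt_r2 (ρ : ℝ) : r2 (pt ρ) = ρ ^ 2 / 40 := by
  unfold r2 pt
  simp only [Matrix.cons_val_zero, Matrix.cons_val_one]
  rw [mul_pow, Real.sq_sqrt (by norm_num)]
  ring

theorem pt_2 (ρ : ℝ) : (pt ρ) 2 = ρ / 40 := by
  unfold pt
  simp

theorem ar_pt {ρ : ℝ} (hρ : 0 < ρ) : ar ρ (r2 (pt ρ)) = 1 := by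
  rw [pt_r2]
  unfold ar
  have h : (ρ ^ 2)⁻¹ * (ρ ^ 2 / 40) = 1 / 40 := by field_simp
  have h' : |(1 / 40 : ℝ)| = 1 / 40 := abs_of_pos (by norm_num)
  rw [h, one_of k2 (by rw [h']; norm_num [k2]), zero_of k1 (by rw [h']; norm_num [k1]), sub_zero]

theorem br_pt {ρ : ℝ} (hρ : 0 < ρ) : br ρ ((pt ρ) 2) = 1 / 40 := by
  rw [pt_2]
  unfold br pp
  have h : ρ⁻¹ * (ρ / 40) = 1 / 40 := by field_simp
  have h' : |(1 / 40 : ℝ)| = 1 / 40 := abs_of_pos (by norm_num)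
  rw [h, one_of k2 (by rw [h']; norm_num [k2]), zero_of k1 (by rw [h']; norm_num [k1]), sub_zero,
    mul_one]

theorem PS_ip {ρ : ℝ} (hρ : 0 < ρ) : 0 < ip (fun y => AX.Am (PS (ar ρ) (br ρ) y))
    (PS (ar ρ) (br ρ)) := by
  have key : ∀ y : E3, inner ℝ (AX.Am (PS (ar ρ) (br ρ) y)) (PS (ar ρ) (br ρ) y) =
      (fun s => ar ρ s ^ 2 * s) (r2 y) * (fun z => br ρ z ^ 2) (y 2) := by
    intro y
    simp only [PiLp.inner_apply, Fin.sum_univ_three, RCLike.inner_apply, conj_trivial]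
    simp only [AX.Am, PS]
    simp
    have : r2 y = y 0 ^ 2 + y 1 ^ 2 := rfl
    rw [this]
    ring
  unfold ip
  simp only [key]
  refine Continuous.integral_pos_of_hasCompactSupport_nonneg_nonzero (x := pt ρ) ?_ ?_ ?_ ?_
  · exact ((((ar_smooth ρ).continuous.pow 2).mul continuous_id).comp r2_smooth.continuous).mul
      (((br_smooth ρ).continuous.pow 2).comp (co 2).continuous)
  · refine cs3 (F := fun s => ar ρ s ^ 2 * s) (g := fun z => br ρ z ^ 2) (C := ρ ^ 2 / 8)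
      (B := ρ / 10) (by positivity) (by positivity) ?_ ?_
    · intro s hs
      simp only [ar_out hρ hs.le]
      ring
    · intro z hz
      simp only [br_out hρ hz.le]
      ring
  · intro y
    have := r2_nonneg y
    positivity
  · rw [ar_pt hρ, br_pt hρ, pt_r2]
    positivity

theorem t_PK : S_PK := by
  set C1 := ∫ v : Fin 2 → ℝ, w0 (v 0 ^ 2 + v 1 ^ 2) ^ 2 with hC1
  set C2 := ∫ v : Fin 2 → ℝ, kc (v 0 ^ 2 + v 1 ^ 2) ^ 2 * (v 0 ^ 2 + v 1 ^ 2) with hC2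
  set A := ∫ s, ff s ^ 2 with hA
  set B := ∫ s, deriv ff s ^ 2 with hB
  have c1 : 0 < C1 := c1pos
  have a0 : 0 < A := ff_q.pos
  obtain ⟨R, hR5, hRl⟩ : ∃ R : ℝ, 5 ≤ R ∧ C2 * B < 2 * C1 * A * R ^ 2 := by
    refine ⟨max 5 (C2 * B / (2 * C1 * A) + 1), le_max_left _ _, ?_⟩
    set R := max 5 (C2 * B / (2 * C1 * A) + 1) with hR
    have h5 : 5 ≤ R := le_max_left _ _
    have h6 : C2 * B / (2 * C1 * A) + 1 ≤ R := le_max_right _ _
    have h7 : C2 * B / (2 * C1 * A) < R ^ 2 := by nlinarith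
    rw [div_lt_iff₀ (by positivity)] at h7
    linarith
  have hR0 : 0 < R := by linarith
  set ρ : ℝ := 1 / (2 * R) with hρdef
  have hρ : 0 < ρ := by positivity
  have hρ1 : ρ ≤ 1 / 10 := by
    rw [hρdef, div_le_div_iff₀ (by positivity) (by norm_num)]
    linarith
  refine ⟨PH (pr R) ff, PS (ar ρ) (br ρ), ρ, ρ / 10, ?_⟩
  constructor
  · exact PH_smooth (pr_smooth R) ff_q.sm
  · exact PS_smooth (ar_smooth ρ) (br_smooth ρ)
  · exact PH_div (pr_smooth R) ff_q.sm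
  · exact PS_div (ar_smooth ρ) (br_smooth ρ)
  · intro y
    have hr := r2_neg y
    ext i
    fin_cases i <;> simp [PH, hr, ff_q.odd, ff_q.deven]
  · intro y
    have hr := r2_neg y
    have hb : br ρ (-(y 2)) = -br ρ (y 2) := by
      unfold br
      rw [mul_neg, pp_q.odd]
    ext i
    fin_cases i <;> simp [PS, hr, hb]
  · positivity
  · linarith
  · linarith
  · intro y hy
    exact PH_out hR5 hy
  · intro y hy
    exact PH_lin hR5 hy
  · intro y hy
    refine PS_zero (Or.inl (ar_in hρ (r2_nonneg y) ?_))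
    have h1 : ‖y‖ ^ 2 ≤ (ρ / 10) ^ 2 := by gcongr
    rw [norm_r2] at h1
    have := sq_nonneg (y 2)
    nlinarith
  · intro y hy
    by_cases h : ρ ^ 2 / 8 ≤ r2 y
    · exact PS_zero (Or.inl (ar_out hρ h))
    · push Not at h
      refine PS_zero (Or.inr (br_out hρ ?_))
      have h1 : (ρ / 2) ^ 2 ≤ ‖y‖ ^ 2 := by gcongr
      rw [norm_r2] at h1
      by_contra hcon
      push Not at hcon
      have h2 : y 2 ^ 2 ≤ (ρ / 10) ^ 2 := by
        rw [← sq_abs]; gcongr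
      nlinarith
  · rw [PH_ip hR0]
    have h1 : 0 < (R ^ 2)⁻¹ := by positivity
    have h2 : 2 * ((R ^ 2)⁻¹ * C1) * A - (R ^ 2)⁻¹ * ((R ^ 2)⁻¹ * C2) * B =
        (R ^ 2)⁻¹ * (R ^ 2)⁻¹ * (2 * C1 * A * R ^ 2 - C2 * B) := by
      field_simp
    rw [h2]
    have h3 : 0 < 2 * C1 * A * R ^ 2 - C2 * B := by linarith
    positivity
  · exact PS_ip hρ
  · exact PH_axi _ _
  · exact PS_axi _ _
  · intro y
    simp only [swirl, PH]
    simp
    ring
  · refine ⟨pt ρ, ?_⟩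
    have h : swirl (PS (ar ρ) (br ρ)) (pt ρ) = ar ρ (r2 (pt ρ)) * br ρ ((pt ρ) 2) * r2 (pt ρ) := by
      simp only [swirl, PS]
      simp
      have : r2 (pt ρ) = (pt ρ) 0 ^ 2 + (pt ρ) 1 ^ 2 := rfl
      rw [this]
      ring
    rw [h, ar_pt hρ, br_pt hρ, pt_r2]
    positivity

end Pool.Agent.N976.AX.A1
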