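import Pool.Agent.N976.AX.A4s

/-! The table of the interactions, also in pointwise form, for axisymmetric packets. -/

open Set Filter Topology MeasureTheory
open scoped ContDiff

set_option autoImplicit false

namespace Pool.Agent.N976.AX.A4

open Pool.Agent.N976.SC Pool.Agent.N976.AX.T4 Pool.Agent.N976.AX.A4s

section ptw

variable {s c β lam θ η : ℝ} {P ψ : E3 → E3}

lemma q1 (hs : 1 < s) (hP : Sm P) (n : ℕ) (y : E3) :
    s ^ (8 * n) • dl s n (RR s c β lam θ P ψ 0) y =
      (((adv (pk s P (n + 1)) (pk s P (n + 1)) y - adv (pk s P n) (pk s P n) y)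
        - (β * s ^ (5 * n)) • pk s P n y) + (β * c * s ^ (5 * (n + 1))) • pk s P (n + 2) y)
        - (β * c * s ^ (5 * n)) • pk s P (n + 1) y := by
  have hs0 : 0 < s := by linarith
  have h1 := hP.pk hs0 1
  have a1 : adv (pk s P (n + 1)) (pk s P (n + 1)) y =
      s ^ (8 * n) • adv (pk s P 1) (pk s P 1) (s ^ (2 * n) • y) := by
    rw [← pk_pk P 1 n, adv_pk h1.diff]
    rfl
  have a2 : adv (pk s P n) (pk s P n) y = s ^ (8 * n) • adv P P (s ^ (2 * n) • y) := by
    rw [adv_pk hP.diff]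
    rfl
  have a3 : pk s P (n + 2) y = s ^ (3 * n) • pk s P 2 (s ^ (2 * n) • y) := by
    rw [← pk_pk P 2 n]
    rfl
  have a4 : pk s P (n + 1) y = s ^ (3 * n) • pk s P 1 (s ^ (2 * n) • y) := by
    rw [← pk_pk P 1 n]
    rfl
  have a5 : pk s P n y = s ^ (3 * n) • P (s ^ (2 * n) • y) := rfl
  rw [a1, a2, a3, a4, a5]
  simp only [RR, dl]
  module

lemma q2 (hP : Sm P) (n : ℕ) (y : E3) :
    s ^ (3 * n) • dl s n (RR s c β lam θ P ψ 1) y = LL (pk s P n) y + β • pk s P n y := by
  rw [LL_pk hP.diff]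
  simp only [RR, dl, pk]
  simp only [smul_add, smul_smul]
  congr 2
  ring

lemma q3 (hs : 1 < s) (hψ : Sm ψ) (n : ℕ) (y : E3) :
    s ^ (3 * n) • dl s n (RR s c β lam θ P ψ 2) y =
      LL (pk s ψ (n + 1)) y - θ • pk s P n y := by
  have hs0 : 0 < s := by linarith
  rw [← pk_pk ψ 1 n, LL_pk (hψ.pk hs0 1).diff]
  simp only [RR, dl, pk]
  simp only [smul_sub, smul_smul]
  congr 2
  ring

lemma q4 (hP : Sm P) (n : ℕ) (y : E3) :
    s ^ (7 * n) • dl s n (RR s c β lam θ P ψ 3) y =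
      lap (pk s P n) y + (lam * s ^ (4 * n)) • pk s P n y := by
  rw [lap_pk hP.sm]
  simp only [RR, dl, pk]
  simp only [smul_add, smul_smul]
  congr 2
  ring

lemma tp_of (hs : 1 < s) (hP : Sm P) (hψ : Sm ψ) (hθ : η * s ^ 5 * θ = c * β)
    (h2 : ∀ (m n : ℕ) (y : E3), m < n →
      adv (pk s P m) (pk s P n) y + adv (pk s P n) (pk s P m) y =
        s ^ (5 * m) • LL (pk s P n) y +
          (if n = m + 1 then s ^ (5 * m) * (η * s ^ 5) else 0) • LL (pk s ψ (m + 1)) y) :
    TP s c β lam (η * s ^ 5) P (fam s (R0 s c β P) (RR s c β lam θ P ψ)) := by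
  refine ⟨?_, ?_, ?_⟩
  · intro n y
    change adv (pk s P n) (pk s P n) y = R0 s c β P y +
      ∑ k ∈ Finset.range n, s ^ (8 * k) • dl s k (RR s c β lam θ P ψ 0) y +
      β • (∑ j ∈ Finset.range n, s ^ (5 * j) • pk s P j y - (s ^ (5 * n) * c) • pk s P (n + 1) y)
    induction n with
    | zero =>
      rw [pk_zero]
      simp only [Finset.range_zero, Finset.sum_empty, add_zero, zero_sub, mul_zero, pow_zero,
        one_mul, zero_add, R0]
      module
    | succ n ih =>
      have e := q1 (c := c) (β := β) (lam := lam) (θ := θ) (ψ := ψ) hs hP n y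
      have e2 : adv (pk s P (n + 1)) (pk s P (n + 1)) y =
          adv (pk s P n) (pk s P n) y + s ^ (8 * n) • dl s n (RR s c β lam θ P ψ 0) y +
            (β * s ^ (5 * n)) • pk s P n y - (β * c * s ^ (5 * (n + 1))) • pk s P (n + 2) y +
            (β * c * s ^ (5 * n)) • pk s P (n + 1) y := by
        rw [e]
        abel
      rw [e2, ih, Finset.sum_range_succ, Finset.sum_range_succ]
      rw [show n + 1 + 1 = n + 2 from rfl]
      module
  · intro m n y hmn
    rw [h2 m n y hmn]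
    change _ = s ^ (5 * m) • (s ^ (3 * n) • dl s n (RR s c β lam θ P ψ 1) y - β • pk s P n y) +
      if n = m + 1 then (η * s ^ 5 * s ^ (8 * m)) • dl s m (RR s c β lam θ P ψ 2) y +
        (β * c * s ^ (5 * m)) • pk s P m y else 0
    rw [q2 hP]
    have e3 := q3 (c := c) (β := β) (lam := lam) (θ := θ) (P := P) hs hψ m y
    split_ifs with h6
    · have e4 : (η * s ^ 5 * s ^ (8 * m)) • dl s m (RR s c β lam θ P ψ 2) y =
          (s ^ (5 * m) * (η * s ^ 5)) • (s ^ (3 * m) • dl s m (RR s c β lam θ P ψ 2) y) := by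
        rw [smul_smul]
        congr 1
        ring
      rw [e4, e3, show β * c * s ^ (5 * m) = s ^ (5 * m) * (η * s ^ 5 * θ) by rw [hθ]; ring]
      module
    · module
  · intro n y
    change lap (pk s P n) y = s ^ (7 * n) • dl s n (RR s c β lam θ P ψ 3) y -
      (lam * s ^ (4 * n)) • pk s P n y
    rw [q4 hP]
    abel

lemma R0_axi (hP : Sm P) (ha : Axi P) : Axi (R0 s c β P) :=
  Axi.add (Axi.adv ha ha hP.diff) (Axi.smul (Axi.pk ha s 1) (β * c))

lemma RR_axi (hs : 1 < s) (hP : Sm P) (hψ : Sm ψ) (ha : Axi P) (hb : Axi ψ) (k : Fin 4) :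
    Axi (RR s c β lam θ P ψ k) := by
  have hs0 : 0 < s := by linarith
  fin_cases k
  · exact Axi.sub (Axi.add (Axi.sub (Axi.sub (Axi.adv (Axi.pk ha s 1) (Axi.pk ha s 1)
      (hP.pk hs0 1).diff) (Axi.adv ha ha hP.diff)) (Axi.smul ha β)) (Axi.smul (Axi.pk ha s 2) _))
      (Axi.smul (Axi.pk ha s 1) _)
  · exact Axi.add (Axi.LL ha hP.diff) (Axi.smul ha _)
  · exact Axi.sub (Axi.LL (Axi.pk hb s 1) (hψ.pk hs0 1).diff) (Axi.smul ha _)
  · exact Axi.add (Axi.lap ha hP.sm) (Axi.smul ha _)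

end ptw

theorem tbl2 {φ ψ : E3 → E3} {ρ ρ' : ℝ} (h : Pk φ ψ ρ ρ') {s : ℝ} (hs : 1 < s)
    (hρ : 1 ≤ ρ' * s ^ 2) {c : ℝ} (hc : 0 < c) :
    ∃ (β lam ζ : ℝ) (P r0 : E3 → E3) (r : Fin 4 → E3 → E3),
      Tbl s c β lam P (fam s r0 r) ∧ TP s c β lam ζ P (fam s r0 r) ∧
      (∀ y, 1 ≤ ‖y‖ → r0 y = 0) ∧ (∀ k y, 1 ≤ ‖y‖ → r k y = 0) ∧
      Axi P ∧ Axi r0 ∧ (∀ k, Axi (r k)) ∧ ∃ y, swirl P y ≠ 0 := by
  have hs0 : 0 < s := by linarith
  obtain ⟨b, hb⟩ : ∃ b, b = -ip (fun y => Am (φ y)) φ := ⟨_, rfl⟩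
  obtain ⟨κ, hκ⟩ : ∃ κ, κ = ip (fun y => Am (ψ y)) ψ := ⟨_, rfl⟩
  have hb0 : 0 < b := by rw [hb]; exact h.bpos
  have hκ0 : 0 < κ := by rw [hκ]; exact h.κpos
  obtain ⟨η, hη⟩ : ∃ η, η = √(c * b / ((s ^ 5 + c) * κ)) := ⟨_, rfl⟩
  have hden : 0 < (s ^ 5 + c) * κ := by positivity
  have hη2 : η ^ 2 = c * b / ((s ^ 5 + c) * κ) := by
    rw [hη, Real.sq_sqrt (by positivity)]
  obtain ⟨P, hPdef⟩ : ∃ P, P = PP s η φ ψ := ⟨_, rfl⟩
  obtain ⟨b', hb'⟩ : ∃ b', b' = -ip (fun y => Am (P y)) P := ⟨_, rfl⟩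
  have hb'1 : b' = b - η ^ 2 * κ := by
    rw [hb', hPdef, bP h hs η, hb, hκ]
    ring
  have hb'2 : b' = b * s ^ 5 / (s ^ 5 + c) := by
    rw [hb'1, hη2]
    field_simp
    ring
  have hb'0 : 0 < b' := by rw [hb'2]; positivity
  have hcb : η ^ 2 * s ^ 5 * κ = c * b' := by
    rw [hη2, hb'2]
    field_simp
  have hP : Sm P := by rw [hPdef]; exact SP h hs η
  have hη0 : 0 < η := by rw [hη]; exact Real.sqrt_pos.2 (by positivity)
  have hax : Axi P := by
    rw [hPdef]
    exact Axi.add h.axφ (Axi.smul (Axi.pk h.axψ s 1) η)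
  have hsw : ∃ y, swirl P y ≠ 0 := by
    obtain ⟨z, hz⟩ := h.swψ
    refine ⟨(s ^ 2)⁻¹ • z, ?_⟩
    have e1 : swirl P ((s ^ 2)⁻¹ • z) = swirl φ ((s ^ 2)⁻¹ • z) +
        η * swirl (pk s ψ 1) ((s ^ 2)⁻¹ • z) := by
      rw [hPdef]
      simp only [swirl, PP, PiLp.add_apply, PiLp.smul_apply, smul_eq_mul]
      ring
    rw [e1, h.swφ, swirl_pk s hs0.ne', zero_add]
    positivity
  have hPo : ∀ y, 1 / 2 ≤ ‖y‖ → P y = 0 := by rw [hPdef]; exact P_out h hs η
  have hψ : Sm ψ := Sψ h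
  obtain ⟨N, hN⟩ : ∃ N, N = ip P P := ⟨_, rfl⟩
  -- `P` does not vanish
  have hne : ∃ y, P y ≠ 0 := by
    by_contra hcon
    push Not at hcon
    have : b' = 0 := by
      rw [hb']
      unfold ip
      simp [hcon]
    linarith
  have hN0 : 0 < N := by
    obtain ⟨y, hy⟩ := hne
    rw [hN]
    unfold ip
    refine int_pos_of (hP.sm.continuous.inner hP.sm.continuous) ?_ (fun y => ?_) (y := y) ?_
    · refine hP.cs.mono ?_
      intro y hy
      simp only [Function.mem_support] at hy ⊢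
      intro h0
      exact hy (by rw [h0, inner_zero_right])
    · rw [real_inner_self_eq_norm_sq]
      positivity
    · rw [real_inner_self_eq_norm_sq]
      have := norm_pos_iff.2 hy
      positivity
  obtain ⟨μ, hμ⟩ : ∃ μ, μ = dir P := ⟨_, rfl⟩
  have hμ0 : 0 < μ := by
    rw [hμ]
    unfold dir
    have hci : ∀ i : Fin 3, Continuous (fun y => fderiv ℝ P y (bv i)) := fun i =>
      (hP.dd (bv i)).sm.continuous
    refine int_pos_of (y := 0) ?_ ?_ (fun y => by positivity) ?_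
    · exact continuous_finsetSum _ fun i _ => ((hci i).norm.pow 2)
    · refine (hP.cs.fderiv (𝕜 := ℝ)).mono ?_
      intro y hy
      simp only [Function.mem_support] at hy ⊢
      intro h0
      exact hy (by simp [h0])
    · have h1 := P_reg h hs hρ η (y := 0) (by simp)
      have h2 := Dψ1_zero h hs hρ (y := 0) (by simp)
      have h3 : fderiv ℝ P 0 = AL := by
        rw [hPdef, h1.2, h2]
        ext1 z
        simp
      rw [h3]
      have h4 : ‖AL (bv 0)‖ ^ 2 = 1 := by
        rw [AL_apply, ← real_inner_self_eq_norm_sq, inner_E3]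
        simp [Am, bv]
      have h5 : 0 < ∑ i : Fin 3, ‖AL (bv i)‖ ^ 2 := by
        rw [Fin.sum_univ_three, h4]
        positivity
      exact h5.ne'
  obtain ⟨β, hβ⟩ : ∃ β, β = b' / N := ⟨_, rfl⟩
  obtain ⟨lam, hlam⟩ : ∃ lam, lam = μ / N := ⟨_, rfl⟩
  obtain ⟨θ, hθ⟩ : ∃ θ, θ = η * κ / N := ⟨_, rfl⟩
  have hβN : β * N = b' := by rw [hβ]; field_simp
  have hlN : lam * N = μ := by rw [hlam]; field_simp
  have hθN : θ * N = η * κ := by rw [hθ]; field_simp
  have hθβ : η * s ^ 5 * θ = c * β := by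
    rw [hθ, hβ]
    have : η * s ^ 5 * (η * κ / N) = (η ^ 2 * s ^ 5 * κ) / N := by ring
    rw [this, hcb]
    ring
  -- the integrals
  have G1 : ∀ m n, ip (pk s P m) (pk s P n) = if m = n then N else 0 := by
    intro m n
    rw [hN, hPdef]
    exact g1 h hs hρ η m n
  have G2 : ∀ n m, ip (pk s P m) (LL (pk s P n)) = if m = n then -b' else 0 := by
    intro n m
    rw [ip_comm, hb', hPdef, neg_neg]
    exact g2 h hs hρ η n m
  have G3 : ∀ n m, ip (pk s P m) (LL (pk s ψ (n + 1))) = if m = n then η * κ else 0 := by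
    intro n m
    rw [ip_comm, hκ, hPdef]
    exact g3 h hs hρ η n m
  have G4 : ∀ n m, ip (pk s P m) (lap (pk s P n)) = if m = n then -(s ^ (4 * n) * μ) else 0 := by
    intro n m
    rw [ip_comm, hμ, hPdef]
    exact g4 h hs hρ η n m
  have G5 : ∀ n m, ip (pk s P m) (adv (pk s P n) (pk s P n)) =
      (if m < n then s ^ (5 * m) * b' else 0) + if m = n + 1 then -(s ^ (5 * n) * (c * b'))
        else 0 := by
    intro n m
    rw [ip_comm, ← hcb, hb', hPdef, hκ]
    exact g5 h hs hρ η n m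
  have hfam : ∀ (w : E3 → E3), (∀ i, ip w (fam s (R0 s c β P)
      (RR s c β lam θ P ψ) i) = 0) ↔ (ip w (R0 s c β P) = 0 ∧
      ∀ k n, ip w (dl s n (RR s c β lam θ P ψ k)) = 0) := by
    intro w
    constructor
    · intro hw
      exact ⟨hw none, fun k n => hw (some (k, n))⟩
    · rintro ⟨h1, h2⟩ i
      rcases i with _ | ⟨k, n⟩
      · exact h1
      · exact h2 k n
  have hTP : TP s c β lam (η * s ^ 5) P (fam s (R0 s c β P) (RR s c β lam θ P ψ)) := by
    refine tp_of hs hP hψ hθβ ?_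
    intro m n y hmn
    rw [hPdef]
    exact p2 h hs hρ η m n hmn y
  refine ⟨β, lam, η * s ^ 5, P, R0 s c β P, RR s c β lam θ P ψ, ⟨by rw [hβ]; positivity,
    by rw [hlam]; positivity, hP.sm, hPo, by rw [hPdef]; exact div_P h hs η, ?_, ?_,
    ⟨N, hN0, G1⟩, ?_, ?_, ?_, ?_⟩, hTP, R0_out hs hPo, RR_out hs hPo (outψ1 h),
    hax, R0_axi hP hax, RR_axi hs hP hψ hax h.axψ, hsw⟩
  · intro i
    rcases i with _ | ⟨k, n⟩
    · exact (SR0 hs hP).sm
    · exact ((SRR hs hP hψ k).dl hs0 n).sm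
  · intro i
    rcases i with _ | ⟨k, n⟩
    · exact (SR0 hs hP).cs
    · exact ((SRR hs hP hψ k).dl hs0 n).cs
  · -- orthogonality
    intro m
    have hw : Continuous (pk s P m) := (hP.pk hs0 m).sm.continuous
    rw [hfam]
    constructor
    · have h0 := G5 0 m
      rw [pk_zero] at h0
      rw [E0 hs hP hw, h0, G1]
      simp only [Nat.not_lt_zero, if_false, zero_add, mul_zero, pow_zero, one_mul]
      split_ifs with h1
      · rw [← hβN]; ring
      · ring
    · intro k n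
      have hp : ∀ (a : ℕ) (x : ℝ), s ^ a * x = 0 → x = 0 := by
        intro a x hx
        rcases mul_eq_zero.1 hx with h1 | h1
        · exact absurd h1 (by positivity)
        · exact h1
      fin_cases k
      · refine hp (8 * n) _ ?_
        rw [show ((fun i => i) (⟨0, by norm_num⟩ : Fin 4)) = (0 : Fin 4) from rfl,
          E1 hs hP hw n, G5, G5, G1, G1, G1]
        rw [← hβN]
        by_cases h2 : m = n
        · subst h2
          split_ifs <;> first | (exfalso; omega) | ring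
        · by_cases h3 : m = n + 1
          · subst h3
            split_ifs <;> first | (exfalso; omega) | ring
          · by_cases h4 : m = n + 2
            · subst h4
              split_ifs <;> first | (exfalso; omega) | ring
            · split_ifs <;> first | (exfalso; omega) | ring
      · refine hp (3 * n) _ ?_
        have e := E2 (c := c) (β := β) (lam := lam) (θ := θ) (ψ := ψ) hs hP hw n
        rw [G2, G1, ← hβN] at e
        refine e.trans ?_
        split_ifs <;> ring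
      · refine hp (3 * n) _ ?_
        have e := E3' (c := c) (β := β) (lam := lam) (θ := θ) hs hP hψ hw n
        rw [G3, G1, ← hθN] at e
        refine e.trans ?_
        split_ifs <;> ring
      · refine hp (7 * n) _ ?_
        have e := E4 (c := c) (β := β) (lam := lam) (θ := θ) (ψ := ψ) hs hP hw n
        rw [G4, G1, ← hlN] at e
        refine e.trans ?_
        split_ifs <;> ring
  · -- diagonal terms
    intro w hw hcon n
    have hwc : Continuous w := hw
    obtain ⟨c0, ck⟩ := (hfam w).1 hcon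
    induction n with
    | zero =>
      have h1 := E0 (c := c) (β := β) hs hP hwc
      rw [c0] at h1
      rw [pk_zero]
      simp
      linarith
    | succ n ih =>
      have h1 := E1 (c := c) (β := β) (lam := lam) (θ := θ) (ψ := ψ) hs hP hwc n
      rw [ck 0 n, mul_zero] at h1
      rw [Finset.sum_range_succ]
      have h2 : s ^ (5 * (n + 1)) = s ^ (5 * (n + 1)) := rfl
      rw [show n + 1 + 1 = n + 2 from rfl]
      linarith
  · -- cross terms
    intro w hw hcon m n hmn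
    have hwc : Continuous w := hw
    obtain ⟨c0, ck⟩ := (hfam w).1 hcon
    have hm := hP.pk hs0 m
    have hn := hP.pk hs0 n
    rw [← ip_add hwc (hm.adv hn.sm) (hn.adv hm.sm)]
    have e : (fun y => adv (pk s P m) (pk s P n) y + adv (pk s P n) (pk s P m) y) = fun y =>
        s ^ (5 * m) • LL (pk s P n) y +
        (if n = m + 1 then s ^ (5 * m) * (η * s ^ 5) else 0) • LL (pk s ψ (m + 1)) y := by
      ext1 y
      rw [hPdef]
      exact p2 h hs hρ η m n hmn y
    rw [e, ip_add hwc (hn.LL.smul _) ((hψ.pk hs0 (m + 1)).LL.smul _), ip_smul, ip_smul]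
    have h2 := E2 (c := c) (β := β) (lam := lam) (θ := θ) (ψ := ψ) hs hP hwc n
    rw [ck 1 n, mul_zero] at h2
    have h3 := E3' (c := c) (β := β) (lam := lam) (θ := θ) hs hP hψ hwc m
    rw [ck 2 m, mul_zero] at h3
    have h4 : ip w (LL (pk s P n)) = -(β * ip w (pk s P n)) := by linarith
    have h5 : ip w (LL (pk s ψ (m + 1))) = θ * ip w (pk s P m) := by linarith
    rw [h4, h5]
    split_ifs with h6
    · have : s ^ (5 * m) * (η * s ^ 5) * (θ * ip w (pk s P m)) =
          s ^ (5 * m) * (η * s ^ 5 * θ) * ip w (pk s P m) := by ring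
      rw [this, hθβ]
      ring
    · ring
  · -- the Laplacian
    intro w hw hcon n
    have hwc : Continuous w := hw
    obtain ⟨c0, ck⟩ := (hfam w).1 hcon
    have h4 := E4 (c := c) (β := β) (lam := lam) (θ := θ) (ψ := ψ) hs hP hwc n
    rw [ck 3 n, mul_zero] at h4
    linarith

end Pool.Agent.N976.AX.A4

namespace Pool.Agent.N976.AX

open Pool.Agent.N976.SC

/-- (A4) The table, also in pointwise form, with axisymmetric fields. -/
theorem t_TBA (hPK : AX.S_PK) : AX.S_TBA := by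
  obtain ⟨φ, ψ, ρ, ρ', h⟩ := hPK
  refine ⟨max 2 (1 / ρ'), fun s hs => ?_⟩
  have h1 : 2 ≤ s := (le_max_left _ _).trans hs
  have h2 : 1 / ρ' ≤ s := (le_max_right _ _).trans hs
  have hρ0 := h.ρ0
  have h3 : 1 ≤ ρ' * s := by
    rw [div_le_iff₀ hρ0] at h2
    linarith
  refine A4.tbl2 h (by linarith) ?_ (c := cc s) ?_
  · nlinarith
  · unfold cc
    have : (0 : ℝ) < s := by linarith
    positivity

end Pool.Agent.N976.AX
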