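import Pool.Agent.N976.AX.Def

/-! Calculus of dilates of smooth fields with compact support. -/

open Set Filter Topology MeasureTheory
open scoped ContDiff

set_option autoImplicit false

namespace Pool.Agent.N976.AX.T4

open Pool.Agent.N976.SC

/-- smooth fields with compact support -/
structure Sm (v : E3 → E3) : Prop where
  sm : ContDiff ℝ ∞ v
  cs : HasCompactSupport v

lemma Sm.diff {v : E3 → E3} (h : Sm v) : Differentiable ℝ v := h.sm.differentiable (by simp)

lemma Sm.of_out {v : E3 → E3} (h : ContDiff ℝ ∞ v) {R : ℝ} (h0 : ∀ y, R ≤ ‖y‖ → v y = 0) : Sm v := by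
  refine ⟨h, HasCompactSupport.of_support_subset_isCompact (isCompact_closedBall (0 : E3) R) ?_⟩
  intro y hy
  simp only [Metric.mem_closedBall, dist_zero_right]
  by_contra hc
  push Not at hc
  exact hy (h0 y hc.le)

lemma Sm.add {v w : E3 → E3} (h : Sm v) (h' : Sm w) : Sm (fun y => v y + w y) :=
  ⟨h.sm.add h'.sm, h.cs.add h'.cs⟩

lemma cd_sm {v : E3 → E3} (h : ContDiff ℝ ∞ v) (a : ℝ) : ContDiff ℝ ∞ (fun y => a • v y) := by
  fun_prop

lemma cd_dl {v : E3 → E3} (h : ContDiff ℝ ∞ v) (a : ℝ) : ContDiff ℝ ∞ (fun y => v (a • y)) := by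
  fun_prop

lemma df_dl {v : E3 → E3} (h : Differentiable ℝ v) (a : ℝ) :
    Differentiable ℝ (fun y => v (a • y)) := by
  fun_prop

lemma Sm.smul {v : E3 → E3} (h : Sm v) (a : ℝ) : Sm (fun y => a • v y) :=
  ⟨cd_sm h.sm a, h.cs.mono (by
    intro y hy
    simp only [Function.mem_support] at hy ⊢
    intro h0
    exact hy (by rw [h0, smul_zero]))⟩

lemma Sm.sub {v w : E3 → E3} (h : Sm v) (h' : Sm w) : Sm (fun y => v y - w y) := by
  have := h.add (h'.smul (-1))
  refine (by simpa [sub_eq_add_neg] using this)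

/-- `Am` as a continuous linear map -/
noncomputable def AL : E3 →L[ℝ] E3 :=
  LinearMap.toContinuousLinearMap
    { toFun := Am
      map_add' := by
        intro x y
        ext i
        fin_cases i <;> simp [Am] <;> ring
      map_smul' := by
        intro a x
        ext i
        fin_cases i <;> simp [Am] <;> ring }

@[simp] lemma AL_apply (y : E3) : AL y = Am y := rfl

lemma Am_add (x y : E3) : Am (x + y) = Am x + Am y := AL.map_add x y

lemma Am_smul (a : ℝ) (x : E3) : Am (a • x) = a • Am x := AL.map_smul a x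

lemma Am_zero : Am 0 = 0 := AL.map_zero

lemma inner_E3 (x y : E3) : inner ℝ x y = x 0 * y 0 + x 1 * y 1 + x 2 * y 2 := by
  simp [PiLp.inner_apply, Fin.sum_univ_three, mul_comm]

lemma Am_inner (x y : E3) : inner ℝ (Am x) y = inner ℝ x (Am y) := by
  simp [inner_E3, Am]
  ring

lemma Sm.Am {v : E3 → E3} (h : Sm v) : Sm (fun y => Am (v y)) := by
  refine ⟨AL.contDiff.comp h.sm, h.cs.mono ?_⟩
  intro y hy
  simp only [Function.mem_support] at hy ⊢
  intro h0
  exact hy (by rw [h0, Am_zero])

lemma cd_fderiv {v : E3 → E3} (h : ContDiff ℝ ∞ v) : ContDiff ℝ ∞ (fderiv ℝ v) :=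
  h.fderiv_right (by simp)

lemma cd_adv {a b : E3 → E3} (ha : ContDiff ℝ ∞ a) (hb : ContDiff ℝ ∞ b) :
    ContDiff ℝ ∞ (adv a b) := (cd_fderiv hb).clm_apply ha

lemma Sm.adv {a b : E3 → E3} (ha : Sm a) (hb : ContDiff ℝ ∞ b) : Sm (adv a b) := by
  refine ⟨cd_adv ha.sm hb, ha.cs.mono ?_⟩
  intro y hy
  simp only [Function.mem_support] at hy ⊢
  intro h0
  exact hy (by simp [Pool.Agent.N976.SC.adv, h0])

/-- the linear operator `(Am y · ∇) v + Am v` -/
noncomputable def LL (v : E3 → E3) (y : E3) : E3 := fderiv ℝ v y (Am y) + Am (v y)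

lemma Sm.LL {v : E3 → E3} (h : Sm v) : Sm (LL v) := by
  refine ⟨((cd_fderiv h.sm).clm_apply AL.contDiff).add (AL.contDiff.comp h.sm), ?_⟩
  have h1 : HasCompactSupport (fun y => fderiv ℝ v y (Pool.Agent.N976.AX.Am y)) := by
    refine (h.cs.fderiv (𝕜 := ℝ)).mono ?_
    intro y hy
    simp only [Function.mem_support] at hy ⊢
    intro h0
    exact hy (by rw [h0]; rfl)
  exact h1.add h.Am.cs

lemma Sm.dd {v : E3 → E3} (h : Sm v) (e : E3) : Sm (fun z => fderiv ℝ v z e) := by
  refine ⟨(cd_fderiv h.sm).clm_apply contDiff_const, ?_⟩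
  refine (h.cs.fderiv (𝕜 := ℝ)).mono ?_
  intro y hy
  simp only [Function.mem_support] at hy ⊢
  intro h0
  exact hy (by rw [h0]; rfl)

lemma Sm.sum {v : Fin 3 → E3 → E3} (h : ∀ i, Sm (v i)) : Sm (fun y => ∑ i, v i y) := by
  simp only [Fin.sum_univ_three]
  exact ((h 0).add (h 1)).add (h 2)

lemma Sm.lap {v : E3 → E3} (h : Sm v) : Sm (lap v) :=
  Sm.sum fun i => (h.dd (bv i)).dd (bv i)

/-! ### `ip` -/

lemma ip_comm (v w : E3 → E3) : ip v w = ip w v := by
  unfold ip
  congr 1
  ext y
  exact real_inner_comm _ _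

lemma integ {w v : E3 → E3} (hw : Continuous w) (hv : Sm v) :
    Integrable (fun y => inner ℝ (w y) (v y)) := by
  have h1 : Continuous (fun y => inner ℝ (w y) (v y)) := hw.inner hv.sm.continuous
  refine h1.integrable_of_hasCompactSupport (hv.cs.mono ?_)
  intro y hy
  simp only [Function.mem_support] at hy ⊢
  intro h0
  exact hy (by rw [h0, inner_zero_right])

lemma ip_add {w v v' : E3 → E3} (hw : Continuous w) (hv : Sm v) (hv' : Sm v') :
    ip w (fun y => v y + v' y) = ip w v + ip w v' := by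
  unfold ip
  rw [← integral_add (integ hw hv) (integ hw hv')]
  congr 1
  ext y
  exact inner_add_right _ _ _

lemma ip_smul (w v : E3 → E3) (a : ℝ) : ip w (fun y => a • v y) = a * ip w v := by
  unfold ip
  rw [← integral_const_mul]
  congr 1
  ext y
  exact real_inner_smul_right _ _ _

lemma ip_smul_left (w v : E3 → E3) (a : ℝ) : ip (fun y => a • w y) v = a * ip w v := by
  rw [ip_comm, ip_smul, ip_comm]

lemma ip_add_left {w w' v : E3 → E3} (hw : Sm w) (hw' : Sm w') (hv : Continuous v) :
    ip (fun y => w y + w' y) v = ip w v + ip w' v := by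
  rw [ip_comm, ip_add hv hw hw', ip_comm v w, ip_comm v w']

lemma ip_sub {w v v' : E3 → E3} (hw : Continuous w) (hv : Sm v) (hv' : Sm v') :
    ip w (fun y => v y - v' y) = ip w v - ip w v' := by
  have h := ip_add hw hv (hv'.smul (-1))
  rw [ip_smul] at h
  have e : (fun y => v y - v' y) = fun y => v y + (-1 : ℝ) • v' y := by
    ext1 y
    rw [neg_one_smul, sub_eq_add_neg]
  rw [e, h]
  ring

/-- odd integrands -/
lemma int_odd {F : E3 → ℝ} (h : ∀ y, F (-y) = -F y) : ∫ y, F y = 0 := by
  have h1 : ∫ y, F (-y) = ∫ y, F y := integral_neg_eq_self F volume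
  have h2 : ∫ y, F (-y) = -∫ y, F y := by
    rw [← integral_neg]
    congr 1
    ext y
    exact h y
  linarith

/-! ### Dilations -/

section dil

variable {s : ℝ}

/-- the dilate `f (s^(2n) y)` -/
noncomputable def dl (s : ℝ) (n : ℕ) (f : E3 → E3) (y : E3) : E3 := f (s ^ (2 * n) • y)

lemma pk_eq (s : ℝ) (v : E3 → E3) (n : ℕ) : pk s v n = fun y => s ^ (3 * n) • dl s n v y := rfl

lemma Sm.dl {v : E3 → E3} (h : Sm v) (hs : 0 < s) (n : ℕ) : Sm (dl s n v) := by
  refine ⟨cd_dl h.sm _, ?_⟩
  have h1 : IsClosedEmbedding (fun y : E3 => s ^ (2 * n) • y) :=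
    (Homeomorph.smulOfNeZero (s ^ (2 * n)) (by positivity)).isClosedEmbedding
  exact h.cs.comp_isClosedEmbedding h1

lemma Sm.pk {v : E3 → E3} (h : Sm v) (hs : 0 < s) (n : ℕ) : Sm (pk s v n) := by
  rw [pk_eq]
  exact (h.dl hs n).smul _

lemma ip_dl (hs : 0 < s) (n : ℕ) (v w : E3 → E3) :
    s ^ (6 * n) * ip (dl s n v) (dl s n w) = ip v w := by
  unfold ip dl
  have h1 := Measure.integral_comp_smul (μ := (volume : Measure E3))
    (fun y => inner ℝ (v y) (w y)) (s ^ (2 * n))
  rw [h1]
  have h2 : Module.finrank ℝ E3 = 3 := by simp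
  rw [h2]
  have h3 : |((s ^ (2 * n)) ^ 3)⁻¹| = (s ^ (6 * n))⁻¹ := by
    rw [abs_of_pos (by positivity)]
    congr 1
    rw [← pow_mul]
    congr 1
    ring
  rw [h3, smul_eq_mul, ← mul_assoc, mul_inv_cancel₀ (by positivity), one_mul]

lemma pk_zero (v : E3 → E3) : pk s v 0 = v := by
  ext1 y
  simp [pk]

lemma pk_pk (v : E3 → E3) (m n : ℕ) : pk s (pk s v m) n = pk s v (n + m) := by
  ext1 y
  simp only [pk]
  rw [smul_smul, smul_smul, ← pow_add, ← pow_add]
  congr 2
  · ring
  · congr 2
    ring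

lemma ip_pk (hs : 0 < s) (n : ℕ) (v w : E3 → E3) : ip (pk s v n) (pk s w n) = ip v w := by
  rw [pk_eq, pk_eq, ip_smul, ip_smul_left, ← ip_dl hs n v w, ← mul_assoc, ← pow_add]
  congr 2
  ring

lemma fderiv_dl {v : E3 → E3} (h : Differentiable ℝ v) (n : ℕ) (y : E3) :
    fderiv ℝ (dl s n v) y = s ^ (2 * n) • fderiv ℝ v (s ^ (2 * n) • y) := by
  have h1 : HasFDerivAt (fun y : E3 => s ^ (2 * n) • y)
      (s ^ (2 * n) • ContinuousLinearMap.id ℝ E3) y :=
    (hasFDerivAt_id (𝕜 := ℝ) y).fun_const_smul (s ^ (2 * n))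
  have h2 : HasFDerivAt v (fderiv ℝ v (s ^ (2 * n) • y)) (s ^ (2 * n) • y) :=
    (h _).hasFDerivAt
  have h3 := (h2.comp y h1).fderiv
  have e : dl s n v = v ∘ fun y => s ^ (2 * n) • y := rfl
  rw [e, h3]
  ext1 z
  simp

lemma fderiv_pk {v : E3 → E3} (h : Differentiable ℝ v) (n : ℕ) (y : E3) :
    fderiv ℝ (pk s v n) y = s ^ (5 * n) • fderiv ℝ v (s ^ (2 * n) • y) := by
  have hd : Differentiable ℝ (dl s n v) := df_dl h _
  rw [pk_eq, fderiv_fun_const_smul (hd y), fderiv_dl h, smul_smul, ← pow_add]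
  congr 2
  ring

lemma adv_pk {a b : E3 → E3} (hb : Differentiable ℝ b) (n : ℕ) :
    adv (pk s a n) (pk s b n) = fun y => s ^ (8 * n) • dl s n (adv a b) y := by
  ext1 y
  simp only [adv, fderiv_pk hb, pk, dl]
  rw [smul_apply, map_smul, smul_smul, ← pow_add]
  congr 2
  ring

lemma LL_pk {v : E3 → E3} (h : Differentiable ℝ v) (n : ℕ) :
    LL (pk s v n) = fun y => s ^ (3 * n) • dl s n (LL v) y := by
  ext1 y
  simp only [LL, fderiv_pk h, pk, dl, Am_smul]
  rw [smul_add, map_smul, smul_apply, smul_smul, ← pow_add]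
  congr 3
  ring

lemma lap_dl {v : E3 → E3} (h : ContDiff ℝ ∞ v) (n : ℕ) :
    lap (dl s n v) = fun y => s ^ (4 * n) • dl s n (lap v) y := by
  ext1 y
  simp only [lap]
  rw [show s ^ (4 * n) • dl s n (lap v) y = ∑ i : Fin 3, s ^ (4 * n) •
    fderiv ℝ (fun z => fderiv ℝ v z (bv i)) (s ^ (2 * n) • y) (bv i) from by
      simp only [dl, lap, Finset.smul_sum]]
  refine Finset.sum_congr rfl fun i _ => ?_
  have h1 : (fun z => fderiv ℝ (dl s n v) z (bv i)) =
      fun z => s ^ (2 * n) • dl s n (fun z => fderiv ℝ v z (bv i)) z := by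
    ext1 z
    rw [fderiv_dl (h.differentiable (by simp))]
    rfl
  have h2 : Differentiable ℝ (fun z => fderiv ℝ v z (bv i)) :=
    ((cd_fderiv h).clm_apply contDiff_const).differentiable (by simp)
  have h3 : Differentiable ℝ (dl s n (fun z => fderiv ℝ v z (bv i))) :=
    df_dl h2 _
  rw [h1, fderiv_fun_const_smul (h3 y), fderiv_dl h2]
  simp only [smul_apply, smul_smul]
  rw [← pow_add]
  congr 2
  ring

lemma lap_smul {v : E3 → E3} (h : ContDiff ℝ ∞ v) (a : ℝ) :
    lap (fun y => a • v y) = fun y => a • lap v y := by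
  ext1 y
  simp only [lap, Finset.smul_sum]
  refine Finset.sum_congr rfl fun i _ => ?_
  have h2 : Differentiable ℝ (fun z => fderiv ℝ v z (bv i)) :=
    ((cd_fderiv h).clm_apply contDiff_const).differentiable (by simp)
  have h1 : (fun z => fderiv ℝ (fun y => a • v y) z (bv i)) =
      fun z => a • (fun z => fderiv ℝ v z (bv i)) z := by
    ext1 z
    rw [fderiv_fun_const_smul ((h.differentiable (by simp)) z)]
    rfl
  rw [h1, fderiv_fun_const_smul (h2 y)]
  rfl

lemma lap_pk {v : E3 → E3} (h : ContDiff ℝ ∞ v) (n : ℕ) :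
    lap (pk s v n) = fun y => s ^ (7 * n) • dl s n (lap v) y := by
  have hd : ContDiff ℝ ∞ (dl s n v) := cd_dl h _
  rw [pk_eq, lap_smul hd, lap_dl h]
  ext1 y
  rw [smul_smul, ← pow_add]
  congr 2
  ring

lemma divg_pk {v : E3 → E3} (h : Differentiable ℝ v) (hd : ∀ y, divg v y = 0) (n : ℕ) (y : E3) :
    divg (pk s v n) y = 0 := by
  have h1 := hd (s ^ (2 * n) • y)
  simp only [divg, fderiv_pk h] at h1 ⊢
  simp only [smul_apply, PiLp.smul_apply, smul_eq_mul, ← Finset.mul_sum, h1,
    mul_zero]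

end dil

/-! ### Integration by parts -/

lemma sum_bv (a : E3) : a = ∑ i : Fin 3, a i • bv i := by
  ext j
  fin_cases j <;> simp [Fin.sum_univ_three, bv]

/-- `∫ (a · ∇) g = 0` for `div a = 0` -/
lemma int_adv {a : E3 → E3} {g : E3 → ℝ} (ha : ContDiff ℝ 1 a) (hg : ContDiff ℝ 1 g)
    (hd : ∀ y, divg a y = 0) (hc : HasCompactSupport a ∨ HasCompactSupport g) :
    ∫ y, fderiv ℝ g y (a y) = 0 := by
  have hai : ∀ i : Fin 3, ContDiff ℝ 1 (fun y => a y i) := fun i =>
    (EuclideanSpace.proj (𝕜 := ℝ) (ι := Fin 3) i).contDiff.comp ha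
  have hdai : ∀ (i : Fin 3) (y v : E3), fderiv ℝ (fun y => a y i) y v = (fderiv ℝ a y v) i := by
    intro i y v
    have h1 : HasFDerivAt a (fderiv ℝ a y) y := (ha.differentiable (by simp) y).hasFDerivAt
    have h2 := ((EuclideanSpace.proj (𝕜 := ℝ) (ι := Fin 3) i).hasFDerivAt.comp y h1).fderiv
    have e : (fun y => a y i) = (EuclideanSpace.proj (𝕜 := ℝ) (ι := Fin 3) i) ∘ a := rfl
    rw [e, h2]
    rfl
  have hag : ∀ i : Fin 3, HasCompactSupport (fun y => a y i) ∨ HasCompactSupport g := by
    intro i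
    rcases hc with hc | hc
    · left
      refine hc.mono ?_
      intro y hy
      simp only [Function.mem_support] at hy ⊢
      intro h0
      exact hy (by rw [h0]; rfl)
    · exact Or.inr hc
  have hga : Continuous (fderiv ℝ g) := hg.continuous_fderiv (by simp)
  have hfa : ∀ i, Continuous (fderiv ℝ (fun y => a y i)) := fun i =>
    (hai i).continuous_fderiv (by simp)
  -- products with compact support are integrable
  have hint : ∀ (f₁ f₂ : E3 → ℝ), Continuous f₁ → Continuous f₂ →
      (HasCompactSupport f₁ ∨ HasCompactSupport f₂) → Integrable (fun y => f₁ y * f₂ y) := by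
    intro f₁ f₂ h1 h2 h3
    refine (h1.mul h2).integrable_of_hasCompactSupport ?_
    rcases h3 with h3 | h3
    · exact h3.mul_right
    · exact h3.mul_left
  have key : ∀ i : Fin 3, ∫ y, a y i * fderiv ℝ g y (bv i) =
      -∫ y, fderiv ℝ (fun y => a y i) y (bv i) * g y := by
    intro i
    refine integral_mul_fderiv_eq_neg_fderiv_mul_of_integrable ?_ ?_ ?_
      (fun x _ => (hai i).differentiable (by simp) x) (fun x _ => hg.differentiable (by simp) x)
    · refine hint _ _ ((hfa i).clm_apply continuous_const) hg.continuous ?_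
      rcases hag i with h | h
      · left
        refine (h.fderiv (𝕜 := ℝ)).mono ?_
        intro y hy
        simp only [Function.mem_support] at hy ⊢
        intro h0
        exact hy (by rw [h0]; rfl)
      · exact Or.inr h
    · refine hint _ _ (hai i).continuous (hga.clm_apply continuous_const) ?_
      rcases hag i with h | h
      · exact Or.inl h
      · right
        refine (h.fderiv (𝕜 := ℝ)).mono ?_
        intro y hy
        simp only [Function.mem_support] at hy ⊢
        intro h0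
        exact hy (by rw [h0]; rfl)
    · exact hint _ _ (hai i).continuous hg.continuous (hag i)
  have e1 : ∀ y, fderiv ℝ g y (a y) = ∑ i : Fin 3, a y i * fderiv ℝ g y (bv i) := by
    intro y
    conv_lhs => rw [sum_bv (a y)]
    rw [map_sum]
    refine Finset.sum_congr rfl fun i _ => ?_
    rw [map_smul, smul_eq_mul]
  have hI1 : ∀ i : Fin 3, Integrable (fun y => a y i * fderiv ℝ g y (bv i)) := by
    intro i
    refine hint _ _ (hai i).continuous (hga.clm_apply continuous_const) ?_
    rcases hag i with h | h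
    · exact Or.inl h
    · right
      refine (h.fderiv (𝕜 := ℝ)).mono ?_
      intro y hy
      simp only [Function.mem_support] at hy ⊢
      intro h0
      exact hy (by rw [h0]; rfl)
  have hI2 : ∀ i : Fin 3, Integrable (fun y => fderiv ℝ (fun y => a y i) y (bv i) * g y) := by
    intro i
    refine hint _ _ ((hfa i).clm_apply continuous_const) hg.continuous ?_
    rcases hag i with h | h
    · left
      refine (h.fderiv (𝕜 := ℝ)).mono ?_
      intro y hy
      simp only [Function.mem_support] at hy ⊢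
      intro h0
      exact hy (by rw [h0]; rfl)
    · exact Or.inr h
  calc ∫ y, fderiv ℝ g y (a y) = ∫ y, ∑ i : Fin 3, a y i * fderiv ℝ g y (bv i) := by
        simp only [e1]
    _ = ∑ i : Fin 3, ∫ y, a y i * fderiv ℝ g y (bv i) := integral_finsetSum _ fun i _ => hI1 i
    _ = ∑ i : Fin 3, -∫ y, fderiv ℝ (fun y => a y i) y (bv i) * g y :=
        Finset.sum_congr rfl fun i _ => key i
    _ = -∫ y, ∑ i : Fin 3, fderiv ℝ (fun y => a y i) y (bv i) * g y := by
        rw [integral_finsetSum _ fun i _ => hI2 i, Finset.sum_neg_distrib]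
    _ = 0 := by
        have : ∀ y, ∑ i : Fin 3, fderiv ℝ (fun y => a y i) y (bv i) * g y = 0 := by
          intro y
          rw [← Finset.sum_mul]
          have h1 := hd y
          unfold divg at h1
          simp only [hdai, h1, zero_mul]
        simp only [this, integral_zero, neg_zero]

/-- antisymmetry of the trilinear form -/
lemma ip_adv_anti {a b c : E3 → E3} (ha : ContDiff ℝ 1 a) (hb : ContDiff ℝ 1 b)
    (hc : ContDiff ℝ 1 c) (hd : ∀ y, divg a y = 0)
    (hcs : HasCompactSupport b ∨ HasCompactSupport c) :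
    ip (adv a b) c = -ip (adv a c) b := by
  have hg : ContDiff ℝ 1 (fun y => inner ℝ (b y) (c y)) := hb.inner ℝ hc
  have hgc : HasCompactSupport (fun y => inner ℝ (b y) (c y)) := by
    rcases hcs with h | h
    · refine h.mono ?_
      intro y hy
      simp only [Function.mem_support] at hy ⊢
      intro h0
      exact hy (by rw [h0, inner_zero_left])
    · refine h.mono ?_
      intro y hy
      simp only [Function.mem_support] at hy ⊢
      intro h0
      exact hy (by rw [h0, inner_zero_right])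
  have h1 := int_adv ha hg hd (Or.inr hgc)
  have h2 : ∀ y, fderiv ℝ (fun y => inner ℝ (b y) (c y)) y (a y) =
      inner ℝ (adv a b y) (c y) + inner ℝ (adv a c y) (b y) := by
    intro y
    rw [fderiv_inner_apply ℝ (hb.differentiable (by simp) y) (hc.differentiable (by simp) y)]
    unfold adv
    rw [real_inner_comm (b y)]
    ring
  simp only [h2] at h1
  have hda : Continuous (adv a b) := (hb.continuous_fderiv (by simp)).clm_apply ha.continuous
  have hda' : Continuous (adv a c) := (hc.continuous_fderiv (by simp)).clm_apply ha.continuous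
  have i1 : Integrable (fun y => inner ℝ (adv a b y) (c y)) := by
    refine (hda.inner hc.continuous).integrable_of_hasCompactSupport ?_
    rcases hcs with h | h
    · refine (h.fderiv (𝕜 := ℝ)).mono ?_
      intro y hy
      simp only [Function.mem_support] at hy ⊢
      intro h0
      exact hy (by simp [adv, h0])
    · refine h.mono ?_
      intro y hy
      simp only [Function.mem_support] at hy ⊢
      intro h0
      exact hy (by rw [h0, inner_zero_right])
  have i2 : Integrable (fun y => inner ℝ (adv a c y) (b y)) := by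
    refine (hda'.inner hb.continuous).integrable_of_hasCompactSupport ?_
    rcases hcs with h | h
    · refine h.mono ?_
      intro y hy
      simp only [Function.mem_support] at hy ⊢
      intro h0
      exact hy (by rw [h0, inner_zero_right])
    · refine (h.fderiv (𝕜 := ℝ)).mono ?_
      intro y hy
      simp only [Function.mem_support] at hy ⊢
      intro h0
      exact hy (by simp [adv, h0])
  rw [integral_add i1 i2] at h1
  unfold ip
  linarith

/-- `∫ ∂ₑ v · w = - ∫ v · ∂ₑ w` -/
lemma ip_dd {v w : E3 → E3} (hv : Sm v) (hw : ContDiff ℝ ∞ w) (e : E3) :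
    ip (fun z => fderiv ℝ v z e) w = -ip v (fun z => fderiv ℝ w z e) := by
  have h1 : ∀ y, divg (fun _ => e) y = 0 := by
    intro y
    simp [divg]
  have h := ip_adv_anti (a := fun _ => e) (b := v) (c := w) contDiff_const
    (hv.sm.of_le (by simp)) (hw.of_le (by simp)) h1 (Or.inl hv.cs)
  rw [ip_comm v]
  exact h

lemma ip_sum_left {v : Fin 3 → E3 → E3} {w : E3 → E3} (h : ∀ i, Sm (v i)) (hw : Continuous w) :
    ip (fun y => ∑ i, v i y) w = ∑ i, ip (v i) w := by
  simp only [Fin.sum_univ_three]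
  rw [ip_add_left ((h 0).add (h 1)) (h 2) hw, ip_add_left (h 0) (h 1) hw]

lemma ip_sum_right {v : Fin 3 → E3 → E3} {w : E3 → E3} (h : ∀ i, Sm (v i)) (hw : Continuous w) :
    ip w (fun y => ∑ i, v i y) = ∑ i, ip w (v i) := by
  rw [ip_comm, ip_sum_left h hw]
  exact Finset.sum_congr rfl fun i _ => ip_comm _ _

/-- the Laplacian is symmetric -/
lemma ip_lap {v w : E3 → E3} (hv : Sm v) (hw : Sm w) : ip (lap v) w = ip v (lap w) := by
  unfold lap
  rw [ip_sum_left (fun i => (hv.dd (bv i)).dd (bv i)) hw.sm.continuous,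
    ip_sum_right (fun i => (hw.dd (bv i)).dd (bv i)) hv.sm.continuous]
  refine Finset.sum_congr rfl fun i _ => ?_
  rw [ip_dd (hv.dd (bv i)) hw.sm, ip_dd hv (hw.dd (bv i)).sm, neg_neg]

/-- `∫ Δv · v = - ∫ |∇v|²` -/
lemma ip_lap_self {v : E3 → E3} (hv : Sm v) : ip (lap v) v = -dir v := by
  unfold lap
  rw [ip_sum_left (fun i => (hv.dd (bv i)).dd (bv i)) hv.sm.continuous]
  have h1 : ∀ i : Fin 3, ip (fun y => fderiv ℝ (fun z => fderiv ℝ v z (bv i)) y (bv i)) v =
      -∫ y, ‖fderiv ℝ v y (bv i)‖ ^ 2 := by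
    intro i
    rw [ip_dd (hv.dd (bv i)) hv.sm]
    unfold ip
    congr 2
    ext y
    exact real_inner_self_eq_norm_sq _
  rw [Finset.sum_congr rfl fun i _ => h1 i, Finset.sum_neg_distrib]
  congr 1
  unfold dir
  rw [integral_finsetSum]
  intro i _
  have h2 := integ (w := fun y => fderiv ℝ v y (bv i)) (hv.dd (bv i)).sm.continuous (hv.dd (bv i))
  refine h2.congr (ae_of_all _ fun y => ?_)
  exact real_inner_self_eq_norm_sq _

end Pool.Agent.N976.AX.T4
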