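import Pool.Agent.N976.AX.A4a

/-! The interactions of the packets (lower index `0`). -/

open Set Filter Topology MeasureTheory
open scoped ContDiff

set_option autoImplicit false

namespace Pool.Agent.N976.AX.T4

open Pool.Agent.N976.SC

/-- the packet -/
noncomputable def PP (s η : ℝ) (φ ψ : E3 → E3) (y : E3) : E3 := φ y + η • pk s ψ 1 y

section base

variable {φ ψ : E3 → E3} {ρ ρ' s η : ℝ}

lemma Sφ (h : Pk φ ψ ρ ρ') : Sm φ := Sm.of_out h.smφ h.outφ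

lemma Sψ (h : Pk φ ψ ρ ρ') : Sm ψ := Sm.of_out h.smψ h.outψ

lemma outψ1 (h : Pk φ ψ ρ ρ') (y : E3) (hy : 1 / 2 ≤ ‖y‖) : ψ y = 0 :=
  h.outψ y (by have := h.ρ2; linarith)

lemma SP (h : Pk φ ψ ρ ρ') (hs : 1 < s) (η : ℝ) : Sm (PP s η φ ψ) :=
  (Sφ h).add (((Sψ h).pk (by linarith) 1).smul η)

lemma pk_out {v : E3 → E3} (hv : ∀ y, 1 / 2 ≤ ‖y‖ → v y = 0) (hs : 1 < s) (n : ℕ) (y : E3)
    (hy : 1 / 2 ≤ s ^ (2 * n) * ‖y‖) : pk s v n y = 0 := by
  have h0 : 0 < s ^ (2 * n) := by positivity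
  unfold pk
  rw [hv _ (by rwa [norm_smul, Real.norm_of_nonneg h0.le]), smul_zero]

lemma P_out (h : Pk φ ψ ρ ρ') (hs : 1 < s) (η : ℝ) (y : E3) (hy : 1 / 2 ≤ ‖y‖) :
    PP s η φ ψ y = 0 := by
  unfold PP
  have h1 : 1 / 2 ≤ s ^ (2 * 1) * ‖y‖ := by
    have : 1 ≤ s ^ (2 * 1) := one_le_pow₀ hs.le
    nlinarith [norm_nonneg y]
  rw [h.outφ y hy, pk_out (outψ1 h) hs 1 y h1, smul_zero, add_zero]

lemma P_pk (n : ℕ) : pk s (PP s η φ ψ) n = fun y => pk s φ n y + η • pk s ψ (n + 1) y := by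
  ext1 y
  have h1 : pk s ψ (n + 1) y = pk s (pk s ψ 1) n y := by rw [pk_pk]
  rw [h1]
  simp only [pk, PP]
  rw [smul_add]
  simp only [smul_smul]
  congr 2
  ring

lemma fderiv_P (h : Pk φ ψ ρ ρ') (hs : 1 < s) (η : ℝ) (y : E3) :
    fderiv ℝ (PP s η φ ψ) y = fderiv ℝ φ y + η • fderiv ℝ (pk s ψ 1) y := by
  have h3 := ((Sψ h).pk (by linarith : (0 : ℝ) < s) 1).diff
  exact (((Sφ h).diff y).hasFDerivAt.fun_add ((h3 y).hasFDerivAt.fun_const_smul η)).fderiv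

lemma div_P (h : Pk φ ψ ρ ρ') (hs : 1 < s) (η : ℝ) (y : E3) : divg (PP s η φ ψ) y = 0 := by
  have h1 := h.divφ y
  have h2 := divg_pk (s := s) (Sψ h).diff h.divψ 1 y
  unfold divg at *
  simp only [fderiv_P h hs η y, add_apply, smul_apply, PiLp.add_apply, PiLp.smul_apply,
    smul_eq_mul, Finset.sum_add_distrib, ← Finset.mul_sum, h1, h2, mul_zero, add_zero]

/-- derivative of a field which vanishes on an open set -/
lemma fderiv_zero_of {v : E3 → E3} {U : Set E3} (hU : IsOpen U) (h0 : ∀ y ∈ U, v y = 0) {y : E3}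
    (hy : y ∈ U) : fderiv ℝ v y = 0 := by
  have h1 : v =ᶠ[𝓝 y] fun _ => 0 := by
    filter_upwards [hU.mem_nhds hy] with z hz
    exact h0 z hz
  rw [h1.fderiv_eq]
  simp

lemma lap_zero_of {v : E3 → E3} {U : Set E3} (hU : IsOpen U) (h0 : ∀ y ∈ U, v y = 0) {y : E3}
    (hy : y ∈ U) : lap v y = 0 := by
  unfold lap
  refine Finset.sum_eq_zero fun i _ => ?_
  have h1 : ∀ z ∈ U, (fun z => fderiv ℝ v z (bv i)) z = 0 := by
    intro z hz
    simp [fderiv_zero_of hU h0 hz]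
  rw [fderiv_zero_of hU h1 hy]
  rfl

lemma open_lt (a b : ℝ) : IsOpen {y : E3 | a * ‖y‖ < b} :=
  isOpen_lt (continuous_const.mul continuous_norm) continuous_const

lemma open_gt (a b : ℝ) : IsOpen {y : E3 | b < a * ‖y‖} :=
  isOpen_lt continuous_const (continuous_const.mul continuous_norm)

/-- the derivative of `pk s v n` vanishes outside of its support -/
lemma fderiv_pk_out {v : E3 → E3} (hv : ∀ y, 1 / 2 ≤ ‖y‖ → v y = 0) (hs : 1 < s) (n : ℕ) (y : E3)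
    (hy : 1 / 2 < s ^ (2 * n) * ‖y‖) : fderiv ℝ (pk s v n) y = 0 :=
  fderiv_zero_of (open_gt (s ^ (2 * n)) (1 / 2))
    (fun z hz => pk_out hv hs n z (le_of_lt hz)) hy

lemma φ_lin (h : Pk φ ψ ρ ρ') {y : E3} (hy : ‖y‖ < ρ) : φ y = Am y ∧ fderiv ℝ φ y = AL := by
  refine ⟨h.linφ y hy, ?_⟩
  have h1 : φ =ᶠ[𝓝 y] AL := by
    have : {z : E3 | ‖z‖ < ρ} ∈ 𝓝 y := (isOpen_lt continuous_norm continuous_const).mem_nhds hy
    filter_upwards [this] with z hz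
    exact h.linφ z hz
  rw [h1.fderiv_eq]
  exact AL.fderiv

lemma lap_φ (h : Pk φ ψ ρ ρ') {y : E3} (hy : ‖y‖ < ρ) : lap φ y = 0 := by
  unfold lap
  refine Finset.sum_eq_zero fun i _ => ?_
  have h1 : (fun z => fderiv ℝ φ z (bv i)) =ᶠ[𝓝 y] fun _ => AL (bv i) := by
    have : {z : E3 | ‖z‖ < ρ} ∈ 𝓝 y := (isOpen_lt continuous_norm continuous_const).mem_nhds hy
    filter_upwards [this] with z hz
    rw [(φ_lin h hz).2]
  rw [h1.fderiv_eq]
  simp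

lemma lin_reg (h : Pk φ ψ ρ ρ') (hs : 1 < s) (hρ : 1 ≤ ρ' * s ^ 2) {y : E3}
    (hy : s ^ 2 * ‖y‖ < 1) : ‖y‖ < ρ := by
  have h1 : s ^ 2 * ‖y‖ < s ^ 2 * ρ' := by linarith [mul_comm ρ' (s ^ 2)]
  have h2 : ‖y‖ < ρ' := lt_of_mul_lt_mul_left h1 (by positivity)
  have := h.ρ1
  have := h.ρ0
  linarith

/-- `ψ` of the scale 1 vanishes at the scale 2 -/
lemma ψ1_zero (h : Pk φ ψ ρ ρ') (hs : 1 < s) (hρ : 1 ≤ ρ' * s ^ 2) {y : E3}
    (hy : s ^ 4 * ‖y‖ < 1) : pk s ψ 1 y = 0 := by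
  unfold pk
  rw [h.inψ, smul_zero]
  have h0 : (0 : ℝ) < s ^ (2 * 1) := by positivity
  rw [norm_smul, Real.norm_of_nonneg h0.le]
  have h1 : s ^ 2 * (s ^ 2 * ‖y‖) < s ^ 2 * ρ' := by
    calc s ^ 2 * (s ^ 2 * ‖y‖) = s ^ 4 * ‖y‖ := by ring
      _ < 1 := hy
      _ ≤ ρ' * s ^ 2 := hρ
      _ = s ^ 2 * ρ' := mul_comm _ _
  have h2 := lt_of_mul_lt_mul_left h1 (by positivity)
  simpa using h2

lemma Dψ1_zero (h : Pk φ ψ ρ ρ') (hs : 1 < s) (hρ : 1 ≤ ρ' * s ^ 2) {y : E3}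
    (hy : s ^ 4 * ‖y‖ < 1) : fderiv ℝ (pk s ψ 1) y = 0 :=
  fderiv_zero_of (open_lt (s ^ 4) 1) (fun _ hz => ψ1_zero h hs hρ hz) hy

lemma P_reg (h : Pk φ ψ ρ ρ') (hs : 1 < s) (hρ : 1 ≤ ρ' * s ^ 2) (η : ℝ) {y : E3}
    (hy : s ^ 2 * ‖y‖ < 1) : PP s η φ ψ y = Am y + η • pk s ψ 1 y ∧
      fderiv ℝ (PP s η φ ψ) y = AL + η • fderiv ℝ (pk s ψ 1) y := by
  have h1 := φ_lin h (lin_reg h hs hρ hy)
  exact ⟨by unfold PP; rw [h1.1], by rw [fderiv_P h hs, h1.2]⟩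

/-! ### Parity -/

lemma pk_odd (h : Pk φ ψ ρ ρ') (n : ℕ) (y : E3) : pk s φ n (-y) = -pk s φ n y := by
  unfold pk
  rw [smul_neg, h.oddφ, smul_neg]

lemma pk_even (h : Pk φ ψ ρ ρ') (n : ℕ) (y : E3) : pk s ψ n (-y) = pk s ψ n y := by
  unfold pk
  rw [smul_neg, h.evψ]

lemma fderiv_even {v : E3 → E3} (hv : Differentiable ℝ v) (he : ∀ y, v (-y) = v y) (y : E3) :
    fderiv ℝ v (-y) = -fderiv ℝ v y := by
  have h1 : HasFDerivAt v (fderiv ℝ v (-y)) (-y) := (hv _).hasFDerivAt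
  have h2 : HasFDerivAt (fun y : E3 => -y) (-ContinuousLinearMap.id ℝ E3) y :=
    (hasFDerivAt_id (𝕜 := ℝ) y).fun_neg
  have h3 := h1.comp y h2
  have e : v ∘ (fun y : E3 => -y) = v := by
    ext1 z
    exact he z
  rw [e] at h3
  rw [h3.fderiv]
  ext1 z
  simp

lemma fderiv_odd {v : E3 → E3} (hv : Differentiable ℝ v) (he : ∀ y, v (-y) = -v y) (y : E3) :
    fderiv ℝ v (-y) = fderiv ℝ v y := by
  have h1 : HasFDerivAt v (fderiv ℝ v (-y)) (-y) := (hv _).hasFDerivAt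
  have h2 : HasFDerivAt (fun y : E3 => -y) (-ContinuousLinearMap.id ℝ E3) y :=
    (hasFDerivAt_id (𝕜 := ℝ) y).fun_neg
  have h3 := h1.comp y h2
  have e : v ∘ (fun y : E3 => -y) = fun y => -v y := by
    ext1 z
    exact he z
  rw [e] at h3
  have h4 := h3.neg.fderiv
  have e2 : (-fun y => -v y) = v := by
    ext1 z
    simp
  rw [e2] at h4
  rw [h4]
  ext1 z
  simp

lemma Am_neg (y : E3) : Am (-y) = -Am y := AL.map_neg y

/-- even fields, orthogonal to odd ones -/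
lemma ip_even_odd {v w : E3 → E3} (hv : ∀ y, v (-y) = v y) (hw : ∀ y, w (-y) = -w y) :
    ip v w = 0 := by
  unfold ip
  refine int_odd fun y => ?_
  rw [hv, hw, inner_neg_right]

lemma LL_even {v : E3 → E3} (hv : Differentiable ℝ v) (he : ∀ y, v (-y) = v y) (y : E3) :
    LL v (-y) = LL v y := by
  unfold LL
  rw [fderiv_even hv he, he, Am_neg]
  simp

lemma lap_even {v : E3 → E3} (hv : ContDiff ℝ ∞ v) (he : ∀ y, v (-y) = v y) (y : E3) :
    lap v (-y) = lap v y := by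
  unfold lap
  refine Finset.sum_congr rfl fun i _ => ?_
  have h1 : Differentiable ℝ (fun z => fderiv ℝ v z (bv i)) :=
    ((cd_fderiv hv).clm_apply contDiff_const).differentiable (by simp)
  rw [fderiv_odd h1]
  intro z
  rw [fderiv_even (hv.differentiable (by simp)) he]
  rfl

/-! ### Vanishing integrals -/

/-- Lemma X: even fields which vanish at the scale 2 -/
lemma ip_X (h : Pk φ ψ ρ ρ') (hs : 1 < s) (η : ℝ) {F : E3 → E3} (he : ∀ y, F (-y) = F y)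
    (h0 : ∀ y, s ^ 4 * ‖y‖ < 1 → F y = 0) (j : ℕ) (hj : 1 ≤ j) :
    ip F (pk s (PP s η φ ψ) j) = 0 := by
  have h1 : ip F (pk s (PP s η φ ψ) j) = ip F (pk s φ j) := by
    unfold ip
    congr 1
    ext y
    rw [P_pk]
    by_cases hy : s ^ 4 * ‖y‖ < 1
    · rw [h0 y hy, inner_zero_left, inner_zero_left]
    · have h2 : pk s ψ (j + 1) y = 0 := by
        refine pk_out (outψ1 h) hs _ y ?_
        have h3 : s ^ 4 ≤ s ^ (2 * (j + 1)) := pow_le_pow_right₀ hs.le (by omega)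
        nlinarith [norm_nonneg y]
      simp only [h2, smul_zero, add_zero]
  rw [h1]
  exact ip_even_odd he (pk_odd h j)

/-- Lemma Y: linear symmetric fields -/
lemma ip_Y {c : E3 → E3} (hc : Sm c) (hd : ∀ y, divg c y = 0) (M : E3 →L[ℝ] E3)
    (hM : ∀ x y, inner ℝ (M x) y = inner ℝ x (M y)) : ip (fun y => M y) c = 0 := by
  have hg : ContDiff ℝ 1 (fun y => (1 / 2 : ℝ) * inner ℝ (M y) y) :=
    contDiff_const.mul (M.contDiff.inner ℝ contDiff_id)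
  have h1 := int_adv (hc.sm.of_le (by simp)) hg hd (Or.inl hc.cs)
  have h2 : ∀ y, fderiv ℝ (fun y => (1 / 2 : ℝ) * inner ℝ (M y) y) y (c y) =
      inner ℝ (M y) (c y) := by
    intro y
    have h3 : HasFDerivAt (fun y => M y) M y := M.hasFDerivAt
    have h4 := (h3.inner ℝ (hasFDerivAt_id (𝕜 := ℝ) y)).const_mul (1 / 2 : ℝ)
    have h5 : fderiv ℝ (fun y => (1 / 2 : ℝ) * inner ℝ (M y) y) y (c y) =
        (1 / 2 : ℝ) * (inner ℝ (M y) (c y) + inner ℝ (M (c y)) y) := by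
      have h6 := h4.fderiv
      simp only [id] at h6
      rw [h6]
      simp
    rw [h5, hM (c y) y, real_inner_comm (M y)]
    ring
  simp only [h2] at h1
  exact h1

end base

end Pool.Agent.N976.AX.T4
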