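import Pool.Agent.N976.AX.A4b

/-! The integrals. -/

open Set Filter Topology MeasureTheory
open scoped ContDiff

set_option autoImplicit false

namespace Pool.Agent.N976.AX.T4

open Pool.Agent.N976.SC

/-- `Am ∘ Am` -/
noncomputable def AA : E3 →L[ℝ] E3 := AL.comp AL

lemma AA_apply (y : E3) : AA y = Am (Am y) := rfl

lemma AA_sym (x y : E3) : inner ℝ (AA x) y = inner ℝ x (AA y) := by
  rw [AA_apply, AA_apply, Am_inner, Am_inner]

lemma div_Am (y : E3) : divg Am y = 0 := by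
  have h1 : fderiv ℝ Am y = AL := AL.fderiv
  unfold divg
  rw [h1]
  simp [Fin.sum_univ_three, Am, bv]
  norm_num

section base

variable {φ ψ : E3 → E3} {ρ ρ' s : ℝ}

lemma SPj (h : Pk φ ψ ρ ρ') (hs : 1 < s) (η : ℝ) (j : ℕ) : Sm (pk s (PP s η φ ψ) j) :=
  (SP h hs η).pk (by linarith) j

lemma Sψ1 (h : Pk φ ψ ρ ρ') (hs : 1 < s) (n : ℕ) : Sm (pk s ψ n) :=
  (Sψ h).pk (by linarith) n

lemma Sφ1 (h : Pk φ ψ ρ ρ') (hs : 1 < s) (n : ℕ) : Sm (pk s φ n) :=
  (Sφ h).pk (by linarith) n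

lemma div_Pj (h : Pk φ ψ ρ ρ') (hs : 1 < s) (η : ℝ) (j : ℕ) (y : E3) :
    divg (pk s (PP s η φ ψ) j) y = 0 :=
  divg_pk (SP h hs η).diff (div_P h hs η) j y

lemma inner_congr {j : ℕ} (h : Pk φ ψ ρ ρ') (hs : 1 < s) (η : ℝ) (hj : 1 ≤ j) {F G : E3 → E3}
    (hFG : ∀ y, s ^ 2 * ‖y‖ < 1 → F y = G y) :
    ip F (pk s (PP s η φ ψ) j) = ip G (pk s (PP s η φ ψ) j) := by
  unfold ip
  congr 1
  ext y
  by_cases hy : s ^ 2 * ‖y‖ < 1
  · rw [hFG y hy]
  · have h2 : pk s (PP s η φ ψ) j y = 0 := by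
      refine pk_out (P_out h hs η) hs _ y ?_
      have h3 : s ^ 2 ≤ s ^ (2 * j) := pow_le_pow_right₀ hs.le (by omega)
      nlinarith [norm_nonneg y]
    rw [h2, inner_zero_right, inner_zero_right]

lemma even_LLψ (h : Pk φ ψ ρ ρ') (hs : 1 < s) (n : ℕ) (y : E3) :
    LL (pk s ψ n) (-y) = LL (pk s ψ n) y :=
  LL_even (Sψ1 h hs n).diff (pk_even h n) y

lemma zero_LLψ (h : Pk φ ψ ρ ρ') (hs : 1 < s) (hρ : 1 ≤ ρ' * s ^ 2) (y : E3)
    (hy : s ^ 4 * ‖y‖ < 1) : LL (pk s ψ 1) y = 0 := by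
  unfold LL
  rw [ψ1_zero h hs hρ hy, Dψ1_zero h hs hρ hy, Am_zero]
  simp

lemma ip_LLψ_P (h : Pk φ ψ ρ ρ') (hs : 1 < s) (hρ : 1 ≤ ρ' * s ^ 2) (η : ℝ) (j : ℕ)
    (hj : 1 ≤ j) : ip (LL (pk s ψ 1)) (pk s (PP s η φ ψ) j) = 0 :=
  ip_X h hs η (even_LLψ h hs 1) (zero_LLψ h hs hρ) j hj

/-- (t5) -/
lemma t5 (h : Pk φ ψ ρ ρ') (hs : 1 < s) (hρ : 1 ≤ ρ' * s ^ 2) (η : ℝ) (j : ℕ) (hj : 1 ≤ j) :
    ip (PP s η φ ψ) (pk s (PP s η φ ψ) j) = 0 := by
  have h1 := inner_congr h hs η hj (F := PP s η φ ψ) (G := fun y => AL y + η • pk s ψ 1 y)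
    (fun y hy => (P_reg h hs hρ η hy).1)
  rw [h1, ip_comm, ip_comm]
  have hS := SPj h hs η j
  have e : ip (fun y => AL y + η • pk s ψ 1 y) (pk s (PP s η φ ψ) j) =
      ip (fun y => AL y) (pk s (PP s η φ ψ) j) +
        η * ip (pk s ψ 1) (pk s (PP s η φ ψ) j) := by
    unfold ip
    rw [← integral_const_mul, ← integral_add]
    · congr 1
      ext y
      rw [inner_add_left, real_inner_smul_left]
    · exact integ AL.continuous hS
    · exact (integ (Sψ1 h hs 1).sm.continuous hS).const_mul _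
  rw [e, ip_Y hS (div_Pj h hs η j) AL Am_inner,
    ip_X h hs η (pk_even h 1) (fun y hy => ψ1_zero h hs hρ hy) j hj]
  ring

/-- (t4) -/
lemma t4 (h : Pk φ ψ ρ ρ') (hs : 1 < s) (hρ : 1 ≤ ρ' * s ^ 2) (η : ℝ) (j : ℕ) (hj : 1 ≤ j) :
    ip (lap (PP s η φ ψ)) (pk s (PP s η φ ψ) j) = 0 := by
  have hS := SPj h hs η j
  have hs0 : (0 : ℝ) < s := by linarith
  have hψ := Sψ1 h hs 1
  have hl : ∀ y, lap (PP s η φ ψ) y = lap φ y + η • lap (pk s ψ 1) y := by
    intro y
    unfold lap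
    rw [Finset.smul_sum, ← Finset.sum_add_distrib]
    refine Finset.sum_congr rfl fun i _ => ?_
    have h1 : (fun z => fderiv ℝ (PP s η φ ψ) z (bv i)) =
        fun z => fderiv ℝ φ z (bv i) + η • fderiv ℝ (pk s ψ 1) z (bv i) := by
      ext1 z
      rw [fderiv_P h hs η z]
      rfl
    rw [h1]
    have h2 := (((Sφ h).dd (bv i)).diff y).hasFDerivAt.fun_add
      ((((hψ).dd (bv i)).diff y).hasFDerivAt.fun_const_smul η)
    rw [h2.fderiv]
    rfl
  have h1 := inner_congr h hs η hj (F := lap (PP s η φ ψ)) (G := fun y => η • lap (pk s ψ 1) y)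
    (fun y hy => by rw [hl, lap_φ h (lin_reg h hs hρ hy), zero_add])
  rw [h1, ip_smul_left, ip_X h hs η (lap_even hψ.sm (pk_even h 1)) _ j hj, mul_zero]
  intro y hy
  exact lap_zero_of (open_lt (s ^ 4) 1) (fun _ hz => ψ1_zero h hs hρ hz) hy

/-- (t3), upper index `j ≥ 1` for `ψ` -/
lemma t3 (h : Pk φ ψ ρ ρ') (hs : 1 < s) (hρ : 1 ≤ ρ' * s ^ 2) (η : ℝ) (j : ℕ) (hj : 1 ≤ j) :
    ip (LL (pk s ψ (j + 1))) (PP s η φ ψ) = 0 := by
  have h1 : ip (LL (pk s ψ (j + 1))) (PP s η φ ψ) = ip (LL (pk s ψ (j + 1))) φ := by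
    unfold ip
    congr 1
    ext y
    by_cases hy : s ^ 4 * ‖y‖ < 1
    · unfold PP
      rw [ψ1_zero h hs hρ hy, smul_zero, add_zero]
    · have h3 : s ^ 4 ≤ s ^ (2 * (j + 1)) := pow_le_pow_right₀ hs.le (by omega)
      have h4 : 1 / 2 < s ^ (2 * (j + 1)) * ‖y‖ := by nlinarith [norm_nonneg y]
      have h2 : LL (pk s ψ (j + 1)) y = 0 := by
        unfold LL
        rw [fderiv_pk_out (outψ1 h) hs _ y h4, pk_out (outψ1 h) hs _ y h4.le, Am_zero]
        simp
      rw [h2, inner_zero_left, inner_zero_left]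
  rw [h1]
  exact ip_even_odd (even_LLψ h hs (j + 1)) h.oddφ

lemma LL_self {v : E3 → E3} (hv : Sm v) : ip (LL v) v = ip (fun y => Am (v y)) v := by
  have h1 := ip_adv_anti (a := Am) (b := v) (c := v) AL.contDiff (hv.sm.of_le (by simp))
    (hv.sm.of_le (by simp)) div_Am (Or.inl hv.cs)
  have h2 : ip (adv Am v) v = 0 := by linarith
  have h3 : Sm (adv Am v) := by
    refine ⟨cd_adv AL.contDiff hv.sm, ?_⟩
    refine (hv.cs.fderiv (𝕜 := ℝ)).mono ?_
    intro y hy
    simp only [Function.mem_support] at hy ⊢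
    intro h0
    exact hy (by simp [adv, h0])
  have h4 := ip_add_left (w := adv Am v) (w' := fun y => Am (v y)) (v := v) h3 hv.Am
    hv.sm.continuous
  have e : LL v = fun y => adv Am v y + Am (v y) := rfl
  rw [e, h4, h2, zero_add]

/-- (t3), `j = 0` -/
lemma t3_0 (h : Pk φ ψ ρ ρ') (hs : 1 < s) (η : ℝ) :
    ip (LL (pk s ψ 1)) (PP s η φ ψ) = η * ip (fun y => Am (ψ y)) ψ := by
  have hψ := Sψ1 h hs 1
  have h1 := ip_add (w := LL (pk s ψ 1)) (v := φ) (v' := fun y => η • pk s ψ 1 y)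
    hψ.LL.sm.continuous (Sφ h) (hψ.smul η)
  have e : PP s η φ ψ = fun y => φ y + η • pk s ψ 1 y := rfl
  rw [e, h1, ip_smul, ip_even_odd (even_LLψ h hs 1) h.oddφ, LL_self hψ, zero_add]
  congr 1
  have h2 : (fun y => Am (pk s ψ 1 y)) = pk s (fun y => Am (ψ y)) 1 := by
    ext1 y
    simp only [pk, Am_smul]
  rw [h2, ip_pk (by linarith)]

/-- the adjoint of `LL` -/
noncomputable def LA (v : E3 → E3) (y : E3) : E3 := Am (v y) - fderiv ℝ v y (Am y)

lemma ip_LL_LA {v w : E3 → E3} (hv : Sm v) (hw : Sm w) : ip (LL v) w = ip (LA w) v := by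
  have h1 := ip_adv_anti (a := Am) (b := v) (c := w) AL.contDiff (hv.sm.of_le (by simp))
    (hw.sm.of_le (by simp)) div_Am (Or.inl hv.cs)
  have h3 : ∀ u : E3 → E3, Sm u → Sm (adv Am u) := by
    intro u hu
    refine ⟨cd_adv AL.contDiff hu.sm, ?_⟩
    refine (hu.cs.fderiv (𝕜 := ℝ)).mono ?_
    intro y hy
    simp only [Function.mem_support] at hy ⊢
    intro h0
    exact hy (by simp [adv, h0])
  have h4 := ip_add_left (w := adv Am v) (w' := fun y => Am (v y)) (v := w) (h3 v hv) hv.Am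
    hw.sm.continuous
  have e : LL v = fun y => adv Am v y + Am (v y) := rfl
  have h5 : ip (LA w) v = ip (fun y => Am (w y)) v - ip (adv Am w) v := by
    rw [ip_comm (LA w), ip_comm _ v, ip_comm _ v]
    exact ip_sub hv.sm.continuous hw.Am (h3 w hw)
  have h6 : ip (fun y => Am (v y)) w = ip (fun y => Am (w y)) v := by
    unfold ip
    congr 1
    ext y
    rw [Am_inner, real_inner_comm]
  rw [e, h4, h5, h1, h6]
  ring

/-- (t2) -/
lemma t2a (h : Pk φ ψ ρ ρ') (hs : 1 < s) (hρ : 1 ≤ ρ' * s ^ 2) (η : ℝ) (j : ℕ) (hj : 1 ≤ j) :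
    ip (LL (PP s η φ ψ)) (pk s (PP s η φ ψ) j) = 0 := by
  have hS := SPj h hs η j
  have h1 := inner_congr h hs η hj (F := LL (PP s η φ ψ))
    (G := fun y => (2 : ℝ) • AA y + η • LL (pk s ψ 1) y) (fun y hy => by
      obtain ⟨r1, r2⟩ := P_reg h hs hρ η hy
      unfold LL
      rw [r1, r2, Am_add, Am_smul, AA_apply, add_apply, smul_apply, AL_apply, smul_add, two_smul]
      abel)
  have e : ip (fun y => (2 : ℝ) • AA y + η • LL (pk s ψ 1) y) (pk s (PP s η φ ψ) j) =
      2 * ip (fun y => AA y) (pk s (PP s η φ ψ) j) +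
        η * ip (LL (pk s ψ 1)) (pk s (PP s η φ ψ) j) := by
    unfold ip
    rw [← integral_const_mul, ← integral_const_mul, ← integral_add]
    · congr 1
      ext y
      rw [inner_add_left, real_inner_smul_left, real_inner_smul_left]
    · exact (integ AA.continuous hS).const_mul _
    · exact (integ (Sψ1 h hs 1).LL.sm.continuous hS).const_mul _
  rw [h1, e, ip_Y hS (div_Pj h hs η j) AA AA_sym, ip_LLψ_P h hs hρ η j hj]
  ring

lemma t2b (h : Pk φ ψ ρ ρ') (hs : 1 < s) (hρ : 1 ≤ ρ' * s ^ 2) (η : ℝ) (j : ℕ) (hj : 1 ≤ j) :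
    ip (LL (pk s (PP s η φ ψ) j)) (PP s η φ ψ) = 0 := by
  rw [ip_LL_LA (SPj h hs η j) (SP h hs η)]
  have h1 := inner_congr h hs η hj (F := LA (PP s η φ ψ))
    (G := fun y => η • LA (pk s ψ 1) y) (fun y hy => by
      obtain ⟨r1, r2⟩ := P_reg h hs hρ η hy
      unfold LA
      rw [r1, r2, Am_add, Am_smul, add_apply, smul_apply, AL_apply, smul_sub]
      abel)
  rw [h1, ip_smul_left, ip_X h hs η _ _ j hj, mul_zero]
  · intro y
    unfold LA
    rw [fderiv_even (Sψ1 h hs 1).diff (pk_even h 1), pk_even h 1, Am_neg]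
    simp
  · intro y hy
    unfold LA
    rw [ψ1_zero h hs hρ hy, Dψ1_zero h hs hρ hy, Am_zero]
    simp

/-- (t1a) -/
lemma t1a (h : Pk φ ψ ρ ρ') (hs : 1 < s) (hρ : 1 ≤ ρ' * s ^ 2) (η : ℝ) (j : ℕ) (hj : 1 ≤ j) :
    ip (adv (pk s (PP s η φ ψ) j) (pk s (PP s η φ ψ) j)) (PP s η φ ψ) =
      -ip (fun y => Am (PP s η φ ψ y)) (PP s η φ ψ) := by
  set P := PP s η φ ψ with hP
  have hs0 : (0 : ℝ) < s := by linarith
  have hS := SPj h hs η j
  rw [← hP] at hS
  have hψ := Sψ1 h hs 1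
  have hφj := Sφ1 h hs j
  rw [ip_adv_anti (hS.sm.of_le (by simp)) (hS.sm.of_le (by simp))
    ((SP h hs η).sm.of_le (by simp)) (div_Pj h hs η j) (Or.inl hS.cs)]
  congr 1
  have hcomm : ip (fun y => Am (P y)) P = ip (fun y => Am (pk s P j y)) (pk s P j) := by
    have h2 : (fun y => Am (pk s P j y)) = pk s (fun y => Am (P y)) j := by
      ext1 y
      simp only [pk, Am_smul]
    rw [h2, ip_pk hs0]
  rw [hcomm]
  -- pointwise identity
  have hpt : ∀ y, inner ℝ (adv (pk s P j) P y) (pk s P j y) =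
      inner ℝ (Am (pk s P j y)) (pk s P j y) +
        η * inner ℝ (fderiv ℝ (pk s ψ 1) y (pk s φ j y)) (pk s φ j y) := by
    intro y
    by_cases hy : s ^ 2 * ‖y‖ < 1
    · obtain ⟨-, r2⟩ := P_reg h hs hρ η hy
      rw [← hP] at r2
      unfold adv
      rw [r2, add_apply, smul_apply, AL_apply, inner_add_left, real_inner_smul_left]
      congr 2
      by_cases hy4 : s ^ 4 * ‖y‖ < 1
      · rw [Dψ1_zero h hs hρ hy4]
        simp
      · have h2 : pk s ψ (j + 1) y = 0 := by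
          refine pk_out (outψ1 h) hs _ y ?_
          have h3 : s ^ 4 ≤ s ^ (2 * (j + 1)) := pow_le_pow_right₀ hs.le (by omega)
          nlinarith [norm_nonneg y]
        have h3 : pk s P j y = pk s φ j y := by
          rw [hP, P_pk]
          simp only [h2, smul_zero, add_zero]
        rw [h3]
    · have h3 : s ^ 2 ≤ s ^ (2 * j) := pow_le_pow_right₀ hs.le (by omega)
      have h4 : 1 / 2 ≤ s ^ (2 * j) * ‖y‖ := by nlinarith [norm_nonneg y]
      rw [pk_out (P_out h hs η) hs j y h4, pk_out h.outφ hs j y h4]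
      simp
  have i1 := integ (w := fun y => Am (pk s P j y)) hS.Am.sm.continuous hS
  have hc : Continuous (fun y => fderiv ℝ (pk s ψ 1) y (pk s φ j y)) :=
    (cd_adv hφj.sm hψ.sm).continuous
  have i2 := integ (w := fun y => fderiv ℝ (pk s ψ 1) y (pk s φ j y)) hc hφj
  have h0 : ∫ y, inner ℝ (fderiv ℝ (pk s ψ 1) y (pk s φ j y)) (pk s φ j y) = 0 := by
    refine int_odd fun y => ?_
    rw [fderiv_even hψ.diff (pk_even h 1), pk_odd h j]
    simp
  rw [← hP]
  unfold ip
  simp only [hpt]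
  rw [integral_add i1 (i2.const_mul _), integral_const_mul, h0, mul_zero, add_zero]

/-- (t1b), (t1c) -/
lemma t1bc (h : Pk φ ψ ρ ρ') (hs : 1 < s) (hρ : 1 ≤ ρ' * s ^ 2) (η : ℝ) (j : ℕ) (hj : 1 ≤ j) :
    ip (adv (PP s η φ ψ) (PP s η φ ψ)) (pk s (PP s η φ ψ) j) =
      if j = 1 then -(η ^ 2 * s ^ 5 * ip (fun y => Am (ψ y)) ψ) else 0 := by
  have hs0 : (0 : ℝ) < s := by linarith
  have hS := SPj h hs η j
  have hψ := Sψ1 h hs 1
  have h1 := inner_congr h hs η hj (F := adv (PP s η φ ψ) (PP s η φ ψ))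
    (G := fun y => (AA y + η • LL (pk s ψ 1) y) + (η ^ 2) • adv (pk s ψ 1) (pk s ψ 1) y)
    (fun y hy => by
      obtain ⟨r1, r2⟩ := P_reg h hs hρ η hy
      unfold LL adv
      rw [r1, r2, AA_apply, add_apply, smul_apply, AL_apply, Am_add, Am_smul, map_add, map_smul,
        smul_add, smul_add, smul_smul, pow_two]
      abel)
  have e : ip (fun y => (AA y + η • LL (pk s ψ 1) y) + (η ^ 2) • adv (pk s ψ 1) (pk s ψ 1) y)
      (pk s (PP s η φ ψ) j) =
      ip (fun y => AA y) (pk s (PP s η φ ψ) j) +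
        η * ip (LL (pk s ψ 1)) (pk s (PP s η φ ψ) j) +
        η ^ 2 * ip (adv (pk s ψ 1) (pk s ψ 1)) (pk s (PP s η φ ψ) j) := by
    unfold ip
    rw [← integral_const_mul, ← integral_const_mul, ← integral_add, ← integral_add]
    · congr 1
      ext y
      rw [inner_add_left, inner_add_left, real_inner_smul_left, real_inner_smul_left]
    · exact (integ AA.continuous hS).add
        ((integ hψ.LL.sm.continuous hS).const_mul _)
    · exact (integ (hψ.adv hψ.sm).sm.continuous hS).const_mul _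
    · exact integ AA.continuous hS
    · exact (integ hψ.LL.sm.continuous hS).const_mul _
  rw [h1, e, ip_Y hS (div_Pj h hs η j) AA AA_sym, ip_LLψ_P h hs hρ η j hj]
  -- the quadratic term
  have h2 : ip (adv (pk s ψ 1) (pk s ψ 1)) (pk s (PP s η φ ψ) j) =
      ip (adv (pk s ψ 1) (pk s ψ 1)) (pk s φ j) := by
    unfold ip
    congr 1
    ext y
    rw [P_pk]
    by_cases hy : s ^ 4 * ‖y‖ < 1
    · have : adv (pk s ψ 1) (pk s ψ 1) y = 0 := by
        unfold adv
        rw [ψ1_zero h hs hρ hy, map_zero]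
      rw [this, inner_zero_left, inner_zero_left]
    · have h2 : pk s ψ (j + 1) y = 0 := by
        refine pk_out (outψ1 h) hs _ y ?_
        have h3 : s ^ 4 ≤ s ^ (2 * (j + 1)) := pow_le_pow_right₀ hs.le (by omega)
        nlinarith [norm_nonneg y]
      simp only [h2, smul_zero, add_zero]
  rw [h2]
  split_ifs with hj1
  · subst hj1
    have h3 : ip (adv (pk s ψ 1) (pk s ψ 1)) (pk s φ 1) = s ^ 5 * ip (adv ψ ψ) φ := by
      rw [adv_pk (Sψ h).diff, pk_eq s φ, ip_smul_left, ip_smul, ← ip_dl hs0 1 (adv ψ ψ) φ,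
        ← mul_assoc, ← mul_assoc, ← pow_add, ← pow_add]
    have h4 : ip (adv ψ ψ) φ = -ip (fun y => Am (ψ y)) ψ := by
      rw [ip_adv_anti ((Sψ h).sm.of_le (by simp)) ((Sψ h).sm.of_le (by simp))
        ((Sφ h).sm.of_le (by simp)) h.divψ (Or.inl (Sψ h).cs)]
      congr 1
      unfold ip
      congr 1
      ext y
      by_cases hy : ‖y‖ < ρ
      · unfold adv
        rw [(φ_lin h hy).2, AL_apply]
      · have : ψ y = 0 := by
          refine h.outψ y ?_
          have := h.ρ0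
          have := h.ρ1
          push Not at hy
          linarith
        rw [this, inner_zero_right, inner_zero_right]
    rw [h3, h4]
    ring
  · have h3 : ip (adv (pk s ψ 1) (pk s ψ 1)) (pk s φ j) = 0 := by
      unfold ip
      rw [← integral_zero E3 ℝ]
      congr 1
      ext y
      by_cases hy : s ^ 4 * ‖y‖ < 1
      · have : adv (pk s ψ 1) (pk s ψ 1) y = 0 := by
          unfold adv
          rw [ψ1_zero h hs hρ hy, map_zero]
        rw [this, inner_zero_left]
      · have h2 : pk s φ j y = 0 := by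
          refine pk_out h.outφ hs _ y ?_
          have h3 : s ^ 4 ≤ s ^ (2 * j) := pow_le_pow_right₀ hs.le (by omega)
          nlinarith [norm_nonneg y]
        rw [h2, inner_zero_right]
    rw [h3]
    ring

/-- (p1) the pointwise identity for the cross terms -/
lemma p1 (h : Pk φ ψ ρ ρ') (hs : 1 < s) (hρ : 1 ≤ ρ' * s ^ 2) (η : ℝ) (j : ℕ) (hj : 1 ≤ j)
    (y : E3) :
    adv (PP s η φ ψ) (pk s (PP s η φ ψ) j) y + adv (pk s (PP s η φ ψ) j) (PP s η φ ψ) y =
      LL (pk s (PP s η φ ψ) j) y + (if j = 1 then (η * s ^ 5) • LL (pk s ψ 1) y else 0) := by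
  set P := PP s η φ ψ with hP
  have hs0 : (0 : ℝ) < s := by linarith
  have hψ := Sψ1 h hs 1
  have hS := SPj h hs η j
  rw [← hP] at hS
  by_cases hy : s ^ 2 * ‖y‖ < 1
  · obtain ⟨r1, r2⟩ := P_reg h hs hρ η hy
    rw [← hP] at r1 r2
    have e1 : adv P (pk s P j) y + adv (pk s P j) P y = LL (pk s P j) y +
        η • (adv (pk s ψ 1) (pk s P j) y + adv (pk s P j) (pk s ψ 1) y) := by
      unfold LL adv
      rw [r1, r2, add_apply, smul_apply, AL_apply, map_add, map_smul, smul_add]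
      abel
    rw [e1]
    congr 1
    by_cases hy4 : s ^ 4 * ‖y‖ < 1
    · have z1 := ψ1_zero h hs hρ hy4
      have z2 := Dψ1_zero h hs hρ hy4
      have z3 := zero_LLψ h hs hρ y hy4
      unfold adv
      rw [z1, z2, z3]
      simp
    · split_ifs with hj1
      · subst hj1
        have h4 : 1 / 2 < s ^ (2 * 2) * ‖y‖ := by
          have : s ^ (2 * 2) = s ^ 4 := by norm_num
          rw [this]
          linarith
        have z1 : pk s ψ 2 y = 0 := pk_out (outψ1 h) hs 2 y h4.le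
        have z2 : fderiv ℝ (pk s ψ 2) y = 0 := fderiv_pk_out (outψ1 h) hs 2 y h4
        have z3 : pk s P 1 y = pk s φ 1 y := by
          rw [hP, P_pk]
          simp only [z1, smul_zero, add_zero]
        have z4 : fderiv ℝ (pk s P 1) y = fderiv ℝ (pk s φ 1) y := by
          rw [hP, P_pk]
          have := (((Sφ1 h hs 1).diff y).hasFDerivAt.fun_add
            (((Sψ1 h hs 2).diff y).hasFDerivAt.fun_const_smul η)).fderiv
          rw [this, z2, smul_zero, add_zero]
        unfold adv LL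
        rw [z3, z4, ← smul_smul]
        congr 1
        by_cases hy5 : s ^ 2 * ‖y‖ < ρ
        · have h5 : ‖s ^ (2 * 1) • y‖ < ρ := by
            rw [norm_smul, Real.norm_of_nonneg (by positivity)]
            simpa using hy5
          have h6 := φ_lin h h5
          have z5 : pk s φ 1 y = s ^ 5 • Am y := by
            unfold pk
            rw [h6.1, Am_smul, smul_smul]
            congr 1
            ring
          rw [fderiv_pk (Sφ h).diff, h6.2, z5, smul_apply, AL_apply, map_smul, smul_add]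
          norm_num
          abel
        · have h5 : ρ < 2 * ‖s ^ (2 * 1) • y‖ := by
            rw [norm_smul, Real.norm_of_nonneg (by positivity)]
            push Not at hy5
            have := h.ρ0
            have := h.ρ1
            have e : s ^ (2 * 1) * ‖y‖ = s ^ 2 * ‖y‖ := by norm_num
            rw [e]
            linarith
          have z5 : pk s ψ 1 y = 0 := by
            unfold pk
            rw [h.outψ _ (by linarith), smul_zero]
          have z6 : fderiv ℝ (pk s ψ 1) y = 0 := by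
            rw [fderiv_pk (Sψ h).diff]
            have : fderiv ℝ ψ (s ^ (2 * 1) • y) = 0 := by
              refine fderiv_zero_of (U := {z | ρ < 2 * ‖z‖}) (open_gt 2 ρ) ?_ h5
              intro z hz
              refine h.outψ z ?_
              have : ρ < 2 * ‖z‖ := hz
              linarith
            rw [this]
            ext1 z
            simp
          rw [z5, z6, Am_zero]
          simp
      · have h3 : s ^ 4 ≤ s ^ (2 * j) := pow_le_pow_right₀ hs.le (by omega)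
        have h4 : 1 / 2 < s ^ (2 * j) * ‖y‖ := by nlinarith [norm_nonneg y]
        unfold adv
        rw [pk_out (P_out h hs η) hs j y h4.le, fderiv_pk_out (P_out h hs η) hs j y h4]
        simp
  · have h3 : s ^ 2 ≤ s ^ (2 * j) := pow_le_pow_right₀ hs.le (by omega)
    have h4 : 1 / 2 < s ^ (2 * j) * ‖y‖ := by nlinarith [norm_nonneg y]
    have h5 : LL (pk s ψ 1) y = 0 := by
      have h6 : 1 / 2 < s ^ (2 * 1) * ‖y‖ := by
        have e : s ^ (2 * 1) * ‖y‖ = s ^ 2 * ‖y‖ := by norm_num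
        rw [e]
        linarith
      unfold LL
      rw [pk_out (outψ1 h) hs 1 y h6.le, fderiv_pk_out (outψ1 h) hs 1 y h6, Am_zero]
      simp
    unfold adv
    rw [h5]
    unfold LL
    rw [pk_out (P_out h hs η) hs j y h4.le, fderiv_pk_out (P_out h hs η) hs j y h4, Am_zero]
    simp

end base

end Pool.Agent.N976.AX.T4
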