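import Pool.Agent.N976.AX.A4c

/-! The table of the interactions. -/

open Set Filter Topology MeasureTheory
open scoped ContDiff

set_option autoImplicit false

namespace Pool.Agent.N976.AX.T4

open Pool.Agent.N976.SC

section scal

variable {s : ℝ}

lemma ip_adv_pk (hs0 : 0 < s) {a b : E3 → E3} (w : E3 → E3) (hb : Differentiable ℝ b) (n : ℕ) :
    ip (adv (pk s a n) (pk s b n)) (pk s w n) = s ^ (5 * n) * ip (adv a b) w := by
  rw [adv_pk hb, pk_eq s w, ip_smul_left, ip_smul, ← ip_dl hs0 n (adv a b) w,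
    ← mul_assoc, ← mul_assoc, ← pow_add, ← pow_add]
  congr 2
  ring

lemma ip_LL_pk (hs0 : 0 < s) {v : E3 → E3} (w : E3 → E3) (hv : Differentiable ℝ v) (n : ℕ) :
    ip (LL (pk s v n)) (pk s w n) = ip (LL v) w := by
  rw [LL_pk hv, pk_eq s w, ip_smul_left, ip_smul, ← ip_dl hs0 n (LL v) w,
    ← mul_assoc, ← pow_add]
  congr 2
  ring

lemma ip_lap_pk (hs0 : 0 < s) {v : E3 → E3} (w : E3 → E3) (hv : ContDiff ℝ ∞ v) (n : ℕ) :
    ip (lap (pk s v n)) (pk s w n) = s ^ (4 * n) * ip (lap v) w := by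
  rw [lap_pk hv, pk_eq s w, ip_smul_left, ip_smul, ← ip_dl hs0 n (lap v) w,
    ← mul_assoc, ← mul_assoc, ← pow_add, ← pow_add]
  congr 2
  ring

end scal

section gen

variable {φ ψ : E3 → E3} {ρ ρ' s : ℝ}

/-- `b' = b - η² κ` -/
lemma bP (h : Pk φ ψ ρ ρ') (hs : 1 < s) (η : ℝ) :
    ip (fun y => Am (PP s η φ ψ y)) (PP s η φ ψ) =
      ip (fun y => Am (φ y)) φ + η ^ 2 * ip (fun y => Am (ψ y)) ψ := by
  have hs0 : (0 : ℝ) < s := by linarith
  have hφ := Sφ h
  have hψ := Sψ1 h hs 1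
  have e1 : (fun y => Am (PP s η φ ψ y)) = fun y => Am (φ y) + η • Am (pk s ψ 1 y) := by
    ext1 y
    unfold PP
    rw [Am_add, Am_smul]
  have e2 : PP s η φ ψ = fun y => φ y + η • pk s ψ 1 y := rfl
  rw [e1]
  have h1 := ip_add_left (w := fun y => Am (φ y)) (w' := fun y => η • Am (pk s ψ 1 y))
    (v := PP s η φ ψ) hφ.Am (hψ.Am.smul η) (SP h hs η).sm.continuous
  rw [h1, ip_smul_left]
  have h2 := ip_add (w := fun y => Am (φ y)) (v := φ) (v' := fun y => η • pk s ψ 1 y)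
    hφ.Am.sm.continuous hφ (hψ.smul η)
  have h3 := ip_add (w := fun y => Am (pk s ψ 1 y)) (v := φ) (v' := fun y => η • pk s ψ 1 y)
    hψ.Am.sm.continuous hφ (hψ.smul η)
  rw [e2, h2, h3, ip_smul, ip_smul]
  have h4 : ip (fun y => Am (φ y)) (pk s ψ 1) = 0 := by
    rw [ip_comm]
    refine ip_even_odd (pk_even h 1) fun y => ?_
    rw [h.oddφ, Am_neg]
  have h5 : ip (fun y => Am (pk s ψ 1 y)) φ = 0 := by
    refine ip_even_odd (fun y => ?_) h.oddφ
    rw [pk_even h 1]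
  have h6 : ip (fun y => Am (pk s ψ 1 y)) (pk s ψ 1) = ip (fun y => Am (ψ y)) ψ := by
    have h2 : (fun y => Am (pk s ψ 1 y)) = pk s (fun y => Am (ψ y)) 1 := by
      ext1 y
      simp only [pk, Am_smul]
    rw [h2, ip_pk hs0]
  rw [h4, h5, h6]
  ring

lemma g1 (h : Pk φ ψ ρ ρ') (hs : 1 < s) (hρ : 1 ≤ ρ' * s ^ 2) (η : ℝ) (m n : ℕ) :
    ip (pk s (PP s η φ ψ) m) (pk s (PP s η φ ψ) n) =
      if m = n then ip (PP s η φ ψ) (PP s η φ ψ) else 0 := by
  have hs0 : (0 : ℝ) < s := by linarith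
  have key : ∀ (m j : ℕ), 1 ≤ j →
      ip (pk s (PP s η φ ψ) m) (pk s (PP s η φ ψ) (m + j)) = 0 := by
    intro m j hj
    rw [← pk_pk, ip_pk hs0, t5 h hs hρ η j hj]
  split_ifs with hmn
  · subst hmn
    rw [ip_pk hs0]
  · rcases Nat.lt_or_gt_of_ne hmn with hlt | hlt
    · obtain ⟨j, rfl⟩ := Nat.exists_eq_add_of_lt hlt
      exact key m (j + 1) (by omega)
    · obtain ⟨j, rfl⟩ := Nat.exists_eq_add_of_lt hlt
      rw [ip_comm]
      exact key n (j + 1) (by omega)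

lemma g2 (h : Pk φ ψ ρ ρ') (hs : 1 < s) (hρ : 1 ≤ ρ' * s ^ 2) (η : ℝ) (n m : ℕ) :
    ip (LL (pk s (PP s η φ ψ) n)) (pk s (PP s η φ ψ) m) =
      if m = n then ip (fun y => Am (PP s η φ ψ y)) (PP s η φ ψ) else 0 := by
  have hs0 : (0 : ℝ) < s := by linarith
  have hP := SP h hs η
  split_ifs with hmn
  · subst hmn
    rw [ip_LL_pk hs0 _ hP.diff, LL_self hP]
  · rcases Nat.lt_or_gt_of_ne hmn with hlt | hlt
    · obtain ⟨j, rfl⟩ := Nat.exists_eq_add_of_lt hlt
      rw [show m + j + 1 = m + (j + 1) from by ring, ← pk_pk,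
        ip_LL_pk hs0 _ (SPj h hs η (j + 1)).diff, t2b h hs hρ η (j + 1) (by omega)]
    · obtain ⟨j, rfl⟩ := Nat.exists_eq_add_of_lt hlt
      rw [show n + j + 1 = n + (j + 1) from by ring, ← pk_pk (PP s η φ ψ) (j + 1) n,
        ip_LL_pk hs0 _ hP.diff, t2a h hs hρ η (j + 1) (by omega)]

lemma g3 (h : Pk φ ψ ρ ρ') (hs : 1 < s) (hρ : 1 ≤ ρ' * s ^ 2) (η : ℝ) (n m : ℕ) :
    ip (LL (pk s ψ (n + 1))) (pk s (PP s η φ ψ) m) =
      if m = n then η * ip (fun y => Am (ψ y)) ψ else 0 := by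
  have hs0 : (0 : ℝ) < s := by linarith
  split_ifs with hmn
  · subst hmn
    rw [← pk_pk ψ 1 m, ip_LL_pk hs0 _ (Sψ1 h hs 1).diff, t3_0 h hs η]
  · rcases Nat.lt_or_gt_of_ne hmn with hlt | hlt
    · obtain ⟨j, rfl⟩ := Nat.exists_eq_add_of_lt hlt
      rw [show m + j + 1 + 1 = m + (j + 1 + 1) from by ring, ← pk_pk ψ (j + 1 + 1) m,
        ip_LL_pk hs0 _ (Sψ1 h hs (j + 1 + 1)).diff, t3 h hs hρ η (j + 1) (by omega)]
    · obtain ⟨j, rfl⟩ := Nat.exists_eq_add_of_lt hlt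
      rw [show n + j + 1 = n + (j + 1) from by ring, ← pk_pk (PP s η φ ψ) (j + 1) n,
        ← pk_pk ψ 1 n, ip_LL_pk hs0 _ (Sψ1 h hs 1).diff, ip_LLψ_P h hs hρ η (j + 1) (by omega)]

lemma g4 (h : Pk φ ψ ρ ρ') (hs : 1 < s) (hρ : 1 ≤ ρ' * s ^ 2) (η : ℝ) (n m : ℕ) :
    ip (lap (pk s (PP s η φ ψ) n)) (pk s (PP s η φ ψ) m) =
      if m = n then -(s ^ (4 * n) * dir (PP s η φ ψ)) else 0 := by
  have hs0 : (0 : ℝ) < s := by linarith
  have hP := SP h hs η
  split_ifs with hmn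
  · subst hmn
    rw [ip_lap_pk hs0 _ hP.sm, ip_lap_self hP]
    ring
  · rcases Nat.lt_or_gt_of_ne hmn with hlt | hlt
    · obtain ⟨j, rfl⟩ := Nat.exists_eq_add_of_lt hlt
      rw [ip_lap (SPj h hs η _) (SPj h hs η _), ip_comm,
        show m + j + 1 = m + (j + 1) from by ring, ← pk_pk (PP s η φ ψ) (j + 1) m,
        ip_lap_pk hs0 _ hP.sm, t4 h hs hρ η (j + 1) (by omega), mul_zero]
    · obtain ⟨j, rfl⟩ := Nat.exists_eq_add_of_lt hlt
      rw [show n + j + 1 = n + (j + 1) from by ring, ← pk_pk (PP s η φ ψ) (j + 1) n,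
        ip_lap_pk hs0 _ hP.sm, t4 h hs hρ η (j + 1) (by omega), mul_zero]

lemma g5 (h : Pk φ ψ ρ ρ') (hs : 1 < s) (hρ : 1 ≤ ρ' * s ^ 2) (η : ℝ) (n m : ℕ) :
    ip (adv (pk s (PP s η φ ψ) n) (pk s (PP s η φ ψ) n)) (pk s (PP s η φ ψ) m) =
      (if m < n then s ^ (5 * m) * -ip (fun y => Am (PP s η φ ψ y)) (PP s η φ ψ) else 0) +
      if m = n + 1 then -(s ^ (5 * n) * (η ^ 2 * s ^ 5 * ip (fun y => Am (ψ y)) ψ)) else 0 := by
  have hs0 : (0 : ℝ) < s := by linarith
  have hP := SP h hs η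
  rcases lt_trichotomy m n with hlt | heq | hlt
  · rw [if_pos hlt, if_neg (by omega), add_zero]
    obtain ⟨j, rfl⟩ := Nat.exists_eq_add_of_lt hlt
    rw [show m + j + 1 = m + (j + 1) from by ring, ← pk_pk (PP s η φ ψ) (j + 1) m,
      ip_adv_pk hs0 _ (SPj h hs η _).diff, t1a h hs hρ η (j + 1) (by omega)]
  · subst heq
    rw [if_neg (by omega), if_neg (by omega), add_zero, ip_adv_pk hs0 _ hP.diff]
    have h1 := ip_adv_anti (hP.sm.of_le (by simp)) (hP.sm.of_le (by simp))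
      (hP.sm.of_le (by simp)) (div_P h hs η) (Or.inl hP.cs)
    have h2 : ip (adv (PP s η φ ψ) (PP s η φ ψ)) (PP s η φ ψ) = 0 := by linarith
    rw [h2, mul_zero]
  · rw [if_neg (by omega), zero_add]
    obtain ⟨j, rfl⟩ := Nat.exists_eq_add_of_lt hlt
    rw [show n + j + 1 = n + (j + 1) from by ring, ← pk_pk (PP s η φ ψ) (j + 1) n,
      ip_adv_pk hs0 _ hP.diff, t1bc h hs hρ η (j + 1) (by omega)]
    by_cases hj : j = 0
    · subst hj
      simp
    · rw [if_neg (by omega), if_neg (by omega), mul_zero]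

/-- (p1) for all indices -/
lemma p2 (h : Pk φ ψ ρ ρ') (hs : 1 < s) (hρ : 1 ≤ ρ' * s ^ 2) (η : ℝ) (m n : ℕ) (hmn : m < n)
    (y : E3) :
    adv (pk s (PP s η φ ψ) m) (pk s (PP s η φ ψ) n) y +
      adv (pk s (PP s η φ ψ) n) (pk s (PP s η φ ψ) m) y =
      s ^ (5 * m) • LL (pk s (PP s η φ ψ) n) y +
        (if n = m + 1 then s ^ (5 * m) * (η * s ^ 5) else 0) • LL (pk s ψ (m + 1)) y := by
  have hs0 : (0 : ℝ) < s := by linarith
  have hP := SP h hs η
  obtain ⟨j, rfl⟩ := Nat.exists_eq_add_of_lt hmn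
  have h1 := p1 h hs hρ η (j + 1) (by omega) (s ^ (2 * m) • y)
  rw [show m + j + 1 = m + (j + 1) from by ring, ← pk_pk (PP s η φ ψ) (j + 1) m,
    adv_pk (SPj h hs η _).diff, adv_pk hP.diff, LL_pk (SPj h hs η _).diff, ← pk_pk ψ 1 m,
    LL_pk (Sψ1 h hs 1).diff]
  simp only [dl]
  rw [← smul_add, h1]
  by_cases hj : j = 0
  · subst hj
    simp only [zero_add, if_true]
    rw [smul_add, smul_smul, smul_smul, smul_smul, ← pow_add]
    congr 2
    · congr 1
      ring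
    · ring
  · rw [if_neg (by omega), if_neg (by omega), add_zero, zero_smul, add_zero, smul_smul, ← pow_add]
    congr 2
    ring

end gen

section fields

/-- the constraint fields -/
noncomputable def R0 (s c β : ℝ) (P : E3 → E3) (y : E3) : E3 :=
  adv P P y + (β * c) • pk s P 1 y

noncomputable def RR (s c β lam θ : ℝ) (P ψ : E3 → E3) : Fin 4 → E3 → E3
  | 0 => fun y => (((adv (pk s P 1) (pk s P 1) y - adv P P y) - β • P y) +
      (β * c * s ^ 5) • pk s P 2 y) - (β * c) • pk s P 1 y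
  | 1 => fun y => LL P y + β • P y
  | 2 => fun y => LL (pk s ψ 1) y - θ • P y
  | 3 => fun y => lap P y + lam • P y

variable {s c β lam θ : ℝ} {P ψ : E3 → E3}

lemma SR0 (hs : 1 < s) (hP : Sm P) : Sm (R0 s c β P) :=
  (hP.adv hP.sm).add ((hP.pk (by linarith) 1).smul _)

lemma SRR (hs : 1 < s) (hP : Sm P) (hψ : Sm ψ) (k : Fin 4) : Sm (RR s c β lam θ P ψ k) := by
  have hs0 : 0 < s := by linarith
  have h1 := hP.pk hs0 1
  fin_cases k
  · exact ((((h1.adv h1.sm).sub (hP.adv hP.sm)).sub (hP.smul _)).add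
      ((hP.pk hs0 2).smul _)).sub (h1.smul _)
  · exact hP.LL.add (hP.smul _)
  · exact (hψ.pk hs0 1).LL.sub (hP.smul _)
  · exact hP.lap.add (hP.smul _)

lemma E0 (hs : 1 < s) (hP : Sm P) {w : E3 → E3} (hw : Continuous w) :
    ip w (R0 s c β P) = ip w (adv P P) + β * c * ip w (pk s P 1) := by
  have h := ip_add hw (hP.adv hP.sm) ((hP.pk (by linarith : 0 < s) 1).smul (β * c))
  rw [ip_smul] at h
  exact h

lemma E1 (hs : 1 < s) (hP : Sm P) {w : E3 → E3} (hw : Continuous w) (n : ℕ) :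
    s ^ (8 * n) * ip w (dl s n (RR s c β lam θ P ψ 0)) =
      ip w (adv (pk s P (n + 1)) (pk s P (n + 1))) - ip w (adv (pk s P n) (pk s P n))
      - β * s ^ (5 * n) * ip w (pk s P n) + β * c * s ^ (5 * (n + 1)) * ip w (pk s P (n + 2))
      - β * c * s ^ (5 * n) * ip w (pk s P (n + 1)) := by
  have hs0 : 0 < s := by linarith
  have h1 := hP.pk hs0 1
  have hn := hP.pk hs0 n
  have hn1 := hP.pk hs0 (n + 1)
  have hn2 := hP.pk hs0 (n + 2)
  rw [← ip_smul]
  have e : (fun y => s ^ (8 * n) • dl s n (RR s c β lam θ P ψ 0) y) = fun y =>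
      (((adv (pk s P (n + 1)) (pk s P (n + 1)) y - adv (pk s P n) (pk s P n) y)
        - (β * s ^ (5 * n)) • pk s P n y) + (β * c * s ^ (5 * (n + 1))) • pk s P (n + 2) y)
        - (β * c * s ^ (5 * n)) • pk s P (n + 1) y := by
    ext1 y
    have a1 : adv (pk s P (n + 1)) (pk s P (n + 1)) y =
        s ^ (8 * n) • adv (pk s P 1) (pk s P 1) (s ^ (2 * n) • y) := by
      rw [← pk_pk P 1 n, adv_pk h1.diff]
      rfl
    have a2 : adv (pk s P n) (pk s P n) y = s ^ (8 * n) • adv P P (s ^ (2 * n) • y) := by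
      rw [adv_pk hP.diff]
      rfl
    have a3 : pk s P (n + 2) y = s ^ (3 * n) • pk s P 2 (s ^ (2 * n) • y) := by
      rw [← pk_pk P 2 n]
      rfl
    have a4 : pk s P (n + 1) y = s ^ (3 * n) • pk s P 1 (s ^ (2 * n) • y) := by
      rw [← pk_pk P 1 n]
      rfl
    have a5 : pk s P n y = s ^ (3 * n) • P (s ^ (2 * n) • y) := rfl
    rw [a1, a2, a3, a4, a5]
    simp only [RR, dl]
    module
  rw [e, ip_sub hw ((((hn1.adv hn1.sm).sub (hn.adv hn.sm)).sub (hn.smul _)).add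
      (hn2.smul _)) (hn1.smul _), ip_add hw (((hn1.adv hn1.sm).sub (hn.adv hn.sm)).sub
      (hn.smul _)) (hn2.smul _), ip_sub hw ((hn1.adv hn1.sm).sub (hn.adv hn.sm)) (hn.smul _),
    ip_sub hw (hn1.adv hn1.sm) (hn.adv hn.sm), ip_smul, ip_smul, ip_smul]

lemma E2 (hs : 1 < s) (hP : Sm P) {w : E3 → E3} (hw : Continuous w) (n : ℕ) :
    s ^ (3 * n) * ip w (dl s n (RR s c β lam θ P ψ 1)) =
      ip w (LL (pk s P n)) + β * ip w (pk s P n) := by
  have hs0 : 0 < s := by linarith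
  have hn := hP.pk hs0 n
  rw [← ip_smul]
  have e : (fun y => s ^ (3 * n) • dl s n (RR s c β lam θ P ψ 1) y) = fun y =>
      LL (pk s P n) y + β • pk s P n y := by
    ext1 y
    rw [LL_pk hP.diff]
    simp only [RR, dl, pk]
    simp only [smul_add, smul_smul]
    congr 2
    ring
  rw [e, ip_add hw hn.LL (hn.smul _), ip_smul]

lemma E3' (hs : 1 < s) (hP : Sm P) (hψ : Sm ψ) {w : E3 → E3} (hw : Continuous w) (n : ℕ) :
    s ^ (3 * n) * ip w (dl s n (RR s c β lam θ P ψ 2)) =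
      ip w (LL (pk s ψ (n + 1))) - θ * ip w (pk s P n) := by
  have hs0 : 0 < s := by linarith
  have hn := hP.pk hs0 n
  rw [← ip_smul]
  have e : (fun y => s ^ (3 * n) • dl s n (RR s c β lam θ P ψ 2) y) = fun y =>
      LL (pk s ψ (n + 1)) y - θ • pk s P n y := by
    ext1 y
    rw [← pk_pk ψ 1 n, LL_pk (hψ.pk hs0 1).diff]
    simp only [RR, dl, pk]
    simp only [smul_sub, smul_smul]
    congr 2
    ring
  rw [e, ip_sub hw (hψ.pk hs0 _).LL (hn.smul _), ip_smul]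

lemma E4 (hs : 1 < s) (hP : Sm P) {w : E3 → E3} (hw : Continuous w) (n : ℕ) :
    s ^ (7 * n) * ip w (dl s n (RR s c β lam θ P ψ 3)) =
      ip w (lap (pk s P n)) + lam * s ^ (4 * n) * ip w (pk s P n) := by
  have hs0 : 0 < s := by linarith
  have hn := hP.pk hs0 n
  rw [← ip_smul]
  have e : (fun y => s ^ (7 * n) • dl s n (RR s c β lam θ P ψ 3) y) = fun y =>
      lap (pk s P n) y + (lam * s ^ (4 * n)) • pk s P n y := by
    ext1 y
    rw [lap_pk hP.sm]
    simp only [RR, dl, pk]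
    simp only [smul_add, smul_smul]
    congr 2
    ring
  rw [e, ip_add hw hn.lap (hn.smul _), ip_smul]

/-- support of the constraint fields -/
lemma R0_out (hs : 1 < s) (hPo : ∀ y, 1 / 2 ≤ ‖y‖ → P y = 0) (y : E3) (hy : 1 ≤ ‖y‖) :
    R0 s c β P y = 0 := by
  have h1 : 1 / 2 ≤ s ^ (2 * 1) * ‖y‖ := by
    have : 1 ≤ s ^ (2 * 1) := one_le_pow₀ hs.le
    nlinarith
  unfold R0 adv
  rw [hPo y (by linarith), pk_out hPo hs 1 y h1]
  simp

lemma RR_out (hs : 1 < s) (hPo : ∀ y, 1 / 2 ≤ ‖y‖ → P y = 0)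
    (hψo : ∀ y, 1 / 2 ≤ ‖y‖ → ψ y = 0) (k : Fin 4) (y : E3) (hy : 1 ≤ ‖y‖) :
    RR s c β lam θ P ψ k y = 0 := by
  have hj : ∀ j : ℕ, 1 / 2 < s ^ (2 * j) * ‖y‖ := by
    intro j
    have : 1 ≤ s ^ (2 * j) := one_le_pow₀ hs.le
    nlinarith
  have hP0 : P y = 0 := hPo y (by linarith)
  have hU : IsOpen {z : E3 | 1 / 2 < ‖z‖} := isOpen_lt continuous_const continuous_norm
  have hU0 : ∀ z ∈ {z : E3 | 1 / 2 < ‖z‖}, P z = 0 := fun z hz => hPo z (le_of_lt hz)
  have hyU : y ∈ {z : E3 | 1 / 2 < ‖z‖} := by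
    change (1 / 2 : ℝ) < ‖y‖
    linarith
  have hDP : fderiv ℝ P y = 0 := fderiv_zero_of hU hU0 hyU
  have hLP : lap P y = 0 := lap_zero_of hU hU0 hyU
  fin_cases k
  · simp only [RR, adv]
    rw [hP0, pk_out hPo hs 1 y (hj 1).le, pk_out hPo hs 2 y (hj 2).le]
    simp
  · simp only [RR, LL]
    rw [hP0, hDP, Am_zero]
    simp
  · simp only [RR, LL]
    rw [hP0, pk_out hψo hs 1 y (hj 1).le, fderiv_pk_out hψo hs 1 y (hj 1), Am_zero]
    simp
  · simp only [RR]
    rw [hP0, hLP]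
    simp

end fields

lemma int_pos_of {f : E3 → ℝ} (hf : Continuous f) (hc : HasCompactSupport f) (h0 : ∀ y, 0 ≤ f y)
    {y : E3} (hy : f y ≠ 0) : 0 < ∫ y, f y :=
  hf.integral_pos_of_hasCompactSupport_nonneg_nonzero hc h0 hy

theorem tbl {φ ψ : E3 → E3} {ρ ρ' : ℝ} (h : Pk φ ψ ρ ρ') {s : ℝ} (hs : 1 < s)
    (hρ : 1 ≤ ρ' * s ^ 2) {c : ℝ} (hc : 0 < c) :
    ∃ (β lam : ℝ) (P r0 : E3 → E3) (r : Fin 4 → E3 → E3),
      Tbl s c β lam P (fam s r0 r) ∧ (∀ y, 1 ≤ ‖y‖ → r0 y = 0) ∧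
      ∀ k y, 1 ≤ ‖y‖ → r k y = 0 := by
  have hs0 : 0 < s := by linarith
  obtain ⟨b, hb⟩ : ∃ b, b = -ip (fun y => Am (φ y)) φ := ⟨_, rfl⟩
  obtain ⟨κ, hκ⟩ : ∃ κ, κ = ip (fun y => Am (ψ y)) ψ := ⟨_, rfl⟩
  have hb0 : 0 < b := by rw [hb]; exact h.bpos
  have hκ0 : 0 < κ := by rw [hκ]; exact h.κpos
  obtain ⟨η, hη⟩ : ∃ η, η = √(c * b / ((s ^ 5 + c) * κ)) := ⟨_, rfl⟩
  have hden : 0 < (s ^ 5 + c) * κ := by positivity
  have hη2 : η ^ 2 = c * b / ((s ^ 5 + c) * κ) := by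
    rw [hη, Real.sq_sqrt (by positivity)]
  obtain ⟨P, hPdef⟩ : ∃ P, P = PP s η φ ψ := ⟨_, rfl⟩
  obtain ⟨b', hb'⟩ : ∃ b', b' = -ip (fun y => Am (P y)) P := ⟨_, rfl⟩
  have hb'1 : b' = b - η ^ 2 * κ := by
    rw [hb', hPdef, bP h hs η, hb, hκ]
    ring
  have hb'2 : b' = b * s ^ 5 / (s ^ 5 + c) := by
    rw [hb'1, hη2]
    field_simp
    ring
  have hb'0 : 0 < b' := by rw [hb'2]; positivity
  have hcb : η ^ 2 * s ^ 5 * κ = c * b' := by
    rw [hη2, hb'2]
    field_simp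
  have hP : Sm P := by rw [hPdef]; exact SP h hs η
  have hPo : ∀ y, 1 / 2 ≤ ‖y‖ → P y = 0 := by rw [hPdef]; exact P_out h hs η
  have hψ : Sm ψ := Sψ h
  obtain ⟨N, hN⟩ : ∃ N, N = ip P P := ⟨_, rfl⟩
  -- `P` does not vanish
  have hne : ∃ y, P y ≠ 0 := by
    by_contra hcon
    push Not at hcon
    have : b' = 0 := by
      rw [hb']
      unfold ip
      simp [hcon]
    linarith
  have hN0 : 0 < N := by
    obtain ⟨y, hy⟩ := hne
    rw [hN]
    unfold ip
    refine int_pos_of (hP.sm.continuous.inner hP.sm.continuous) ?_ (fun y => ?_) (y := y) ?_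
    · refine hP.cs.mono ?_
      intro y hy
      simp only [Function.mem_support] at hy ⊢
      intro h0
      exact hy (by rw [h0, inner_zero_right])
    · rw [real_inner_self_eq_norm_sq]
      positivity
    · rw [real_inner_self_eq_norm_sq]
      have := norm_pos_iff.2 hy
      positivity
  obtain ⟨μ, hμ⟩ : ∃ μ, μ = dir P := ⟨_, rfl⟩
  have hμ0 : 0 < μ := by
    rw [hμ]
    unfold dir
    have hci : ∀ i : Fin 3, Continuous (fun y => fderiv ℝ P y (bv i)) := fun i =>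
      (hP.dd (bv i)).sm.continuous
    refine int_pos_of (y := 0) ?_ ?_ (fun y => by positivity) ?_
    · exact continuous_finsetSum _ fun i _ => ((hci i).norm.pow 2)
    · refine (hP.cs.fderiv (𝕜 := ℝ)).mono ?_
      intro y hy
      simp only [Function.mem_support] at hy ⊢
      intro h0
      exact hy (by simp [h0])
    · have h1 := P_reg h hs hρ η (y := 0) (by simp)
      have h2 := Dψ1_zero h hs hρ (y := 0) (by simp)
      have h3 : fderiv ℝ P 0 = AL := by
        rw [hPdef, h1.2, h2]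
        ext1 z
        simp
      rw [h3]
      have h4 : ‖AL (bv 0)‖ ^ 2 = 1 := by
        rw [AL_apply, ← real_inner_self_eq_norm_sq, inner_E3]
        simp [Am, bv]
      have h5 : 0 < ∑ i : Fin 3, ‖AL (bv i)‖ ^ 2 := by
        rw [Fin.sum_univ_three, h4]
        positivity
      exact h5.ne'
  obtain ⟨β, hβ⟩ : ∃ β, β = b' / N := ⟨_, rfl⟩
  obtain ⟨lam, hlam⟩ : ∃ lam, lam = μ / N := ⟨_, rfl⟩
  obtain ⟨θ, hθ⟩ : ∃ θ, θ = η * κ / N := ⟨_, rfl⟩
  have hβN : β * N = b' := by rw [hβ]; field_simp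
  have hlN : lam * N = μ := by rw [hlam]; field_simp
  have hθN : θ * N = η * κ := by rw [hθ]; field_simp
  have hθβ : η * s ^ 5 * θ = c * β := by
    rw [hθ, hβ]
    have : η * s ^ 5 * (η * κ / N) = (η ^ 2 * s ^ 5 * κ) / N := by ring
    rw [this, hcb]
    ring
  -- the integrals
  have G1 : ∀ m n, ip (pk s P m) (pk s P n) = if m = n then N else 0 := by
    intro m n
    rw [hN, hPdef]
    exact g1 h hs hρ η m n
  have G2 : ∀ n m, ip (pk s P m) (LL (pk s P n)) = if m = n then -b' else 0 := by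
    intro n m
    rw [ip_comm, hb', hPdef, neg_neg]
    exact g2 h hs hρ η n m
  have G3 : ∀ n m, ip (pk s P m) (LL (pk s ψ (n + 1))) = if m = n then η * κ else 0 := by
    intro n m
    rw [ip_comm, hκ, hPdef]
    exact g3 h hs hρ η n m
  have G4 : ∀ n m, ip (pk s P m) (lap (pk s P n)) = if m = n then -(s ^ (4 * n) * μ) else 0 := by
    intro n m
    rw [ip_comm, hμ, hPdef]
    exact g4 h hs hρ η n m
  have G5 : ∀ n m, ip (pk s P m) (adv (pk s P n) (pk s P n)) =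
      (if m < n then s ^ (5 * m) * b' else 0) + if m = n + 1 then -(s ^ (5 * n) * (c * b'))
        else 0 := by
    intro n m
    rw [ip_comm, ← hcb, hb', hPdef, hκ]
    exact g5 h hs hρ η n m
  have hfam : ∀ (w : E3 → E3), (∀ i, ip w (fam s (R0 s c β P)
      (RR s c β lam θ P ψ) i) = 0) ↔ (ip w (R0 s c β P) = 0 ∧
      ∀ k n, ip w (dl s n (RR s c β lam θ P ψ k)) = 0) := by
    intro w
    constructor
    · intro hw
      exact ⟨hw none, fun k n => hw (some (k, n))⟩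
    · rintro ⟨h1, h2⟩ i
      rcases i with _ | ⟨k, n⟩
      · exact h1
      · exact h2 k n
  refine ⟨β, lam, P, R0 s c β P, RR s c β lam θ P ψ, ⟨by rw [hβ]; positivity,
    by rw [hlam]; positivity, hP.sm, hPo, by rw [hPdef]; exact div_P h hs η, ?_, ?_,
    ⟨N, hN0, G1⟩, ?_, ?_, ?_, ?_⟩, R0_out hs hPo, RR_out hs hPo (outψ1 h)⟩
  · intro i
    rcases i with _ | ⟨k, n⟩
    · exact (SR0 hs hP).sm
    · exact ((SRR hs hP hψ k).dl hs0 n).sm
  · intro i
    rcases i with _ | ⟨k, n⟩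
    · exact (SR0 hs hP).cs
    · exact ((SRR hs hP hψ k).dl hs0 n).cs
  · -- orthogonality
    intro m
    have hw : Continuous (pk s P m) := (hP.pk hs0 m).sm.continuous
    rw [hfam]
    constructor
    · have h0 := G5 0 m
      rw [pk_zero] at h0
      rw [E0 hs hP hw, h0, G1]
      simp only [Nat.not_lt_zero, if_false, zero_add, mul_zero, pow_zero, one_mul]
      split_ifs with h1
      · rw [← hβN]; ring
      · ring
    · intro k n
      have hp : ∀ (a : ℕ) (x : ℝ), s ^ a * x = 0 → x = 0 := by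
        intro a x hx
        rcases mul_eq_zero.1 hx with h1 | h1
        · exact absurd h1 (by positivity)
        · exact h1
      fin_cases k
      · refine hp (8 * n) _ ?_
        rw [show ((fun i => i) (⟨0, by norm_num⟩ : Fin 4)) = (0 : Fin 4) from rfl,
          E1 hs hP hw n, G5, G5, G1, G1, G1]
        rw [← hβN]
        by_cases h2 : m = n
        · subst h2
          split_ifs <;> first | (exfalso; omega) | ring
        · by_cases h3 : m = n + 1
          · subst h3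
            split_ifs <;> first | (exfalso; omega) | ring
          · by_cases h4 : m = n + 2
            · subst h4
              split_ifs <;> first | (exfalso; omega) | ring
            · split_ifs <;> first | (exfalso; omega) | ring
      · refine hp (3 * n) _ ?_
        have e := E2 (c := c) (β := β) (lam := lam) (θ := θ) (ψ := ψ) hs hP hw n
        rw [G2, G1, ← hβN] at e
        refine e.trans ?_
        split_ifs <;> ring
      · refine hp (3 * n) _ ?_
        have e := E3' (c := c) (β := β) (lam := lam) (θ := θ) hs hP hψ hw n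
        rw [G3, G1, ← hθN] at e
        refine e.trans ?_
        split_ifs <;> ring
      · refine hp (7 * n) _ ?_
        have e := E4 (c := c) (β := β) (lam := lam) (θ := θ) (ψ := ψ) hs hP hw n
        rw [G4, G1, ← hlN] at e
        refine e.trans ?_
        split_ifs <;> ring
  · -- diagonal terms
    intro w hw hcon n
    have hwc : Continuous w := hw
    obtain ⟨c0, ck⟩ := (hfam w).1 hcon
    induction n with
    | zero =>
      have h1 := E0 (c := c) (β := β) hs hP hwc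
      rw [c0] at h1
      rw [pk_zero]
      simp
      linarith
    | succ n ih =>
      have h1 := E1 (c := c) (β := β) (lam := lam) (θ := θ) (ψ := ψ) hs hP hwc n
      rw [ck 0 n, mul_zero] at h1
      rw [Finset.sum_range_succ]
      have h2 : s ^ (5 * (n + 1)) = s ^ (5 * (n + 1)) := rfl
      rw [show n + 1 + 1 = n + 2 from rfl]
      linarith
  · -- cross terms
    intro w hw hcon m n hmn
    have hwc : Continuous w := hw
    obtain ⟨c0, ck⟩ := (hfam w).1 hcon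
    have hm := hP.pk hs0 m
    have hn := hP.pk hs0 n
    rw [← ip_add hwc (hm.adv hn.sm) (hn.adv hm.sm)]
    have e : (fun y => adv (pk s P m) (pk s P n) y + adv (pk s P n) (pk s P m) y) = fun y =>
        s ^ (5 * m) • LL (pk s P n) y +
        (if n = m + 1 then s ^ (5 * m) * (η * s ^ 5) else 0) • LL (pk s ψ (m + 1)) y := by
      ext1 y
      rw [hPdef]
      exact p2 h hs hρ η m n hmn y
    rw [e, ip_add hwc (hn.LL.smul _) ((hψ.pk hs0 (m + 1)).LL.smul _), ip_smul, ip_smul]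
    have h2 := E2 (c := c) (β := β) (lam := lam) (θ := θ) (ψ := ψ) hs hP hwc n
    rw [ck 1 n, mul_zero] at h2
    have h3 := E3' (c := c) (β := β) (lam := lam) (θ := θ) hs hP hψ hwc m
    rw [ck 2 m, mul_zero] at h3
    have h4 : ip w (LL (pk s P n)) = -(β * ip w (pk s P n)) := by linarith
    have h5 : ip w (LL (pk s ψ (m + 1))) = θ * ip w (pk s P m) := by linarith
    rw [h4, h5]
    split_ifs with h6
    · have : s ^ (5 * m) * (η * s ^ 5) * (θ * ip w (pk s P m)) =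
          s ^ (5 * m) * (η * s ^ 5 * θ) * ip w (pk s P m) := by ring
      rw [this, hθβ]
      ring
    · ring
  · -- the Laplacian
    intro w hw hcon n
    have hwc : Continuous w := hw
    obtain ⟨c0, ck⟩ := (hfam w).1 hcon
    have h4 := E4 (c := c) (β := β) (lam := lam) (θ := θ) (ψ := ψ) hs hP hwc n
    rw [ck 3 n, mul_zero] at h4
    linarith

theorem t_TBL (hPK : S_PK) : S_TBL := by
  obtain ⟨φ, ψ, ρ, ρ', h⟩ := hPK
  refine ⟨max 2 (1 / ρ'), fun s hs => ?_⟩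
  have h1 : 2 ≤ s := (le_max_left _ _).trans hs
  have h2 : 1 / ρ' ≤ s := (le_max_right _ _).trans hs
  have hρ0 := h.ρ0
  have h3 : 1 ≤ ρ' * s := by
    rw [div_le_iff₀ hρ0] at h2
    linarith
  refine tbl h (by linarith) ?_ (c := cc s) ?_
  · nlinarith
  · unfold cc
    have : (0 : ℝ) < s := by linarith
    positivity

end Pool.Agent.N976.AX.T4
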