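import Pool.Agent.N976.AX.A4d

/-! Axisymmetric fields. -/

open Set Filter Topology MeasureTheory
open scoped ContDiff

set_option autoImplicit false

namespace Pool.Agent.N976.AX.A4s

open Pool.Agent.N976.SC Pool.Agent.N976.AX.T4

/-- the rotation as a continuous linear map -/
noncomputable def RL (α : ℝ) : E3 →L[ℝ] E3 :=
  LinearMap.toContinuousLinearMap
    { toFun := rot α
      map_add' := by
        intro x y
        ext i
        fin_cases i <;> simp [rot] <;> ring
      map_smul' := by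
        intro a x
        ext i
        fin_cases i <;> simp [rot] <;> ring }

@[simp] lemma RL_apply (α : ℝ) (y : E3) : RL α y = rot α y := rfl

lemma rot_add (α : ℝ) (x y : E3) : rot α (x + y) = rot α x + rot α y := (RL α).map_add x y

lemma rot_smul (α a : ℝ) (x : E3) : rot α (a • x) = a • rot α x := (RL α).map_smul a x

lemma rot_sub (α : ℝ) (x y : E3) : rot α (x - y) = rot α x - rot α y := (RL α).map_sub x y

lemma Am_rot (α : ℝ) (y : E3) : Am (rot α y) = rot α (Am y) := by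
  ext i
  fin_cases i <;> simp [Am, rot]

variable {v w : E3 → E3}

lemma Axi.add (hv : Axi v) (hw : Axi w) : Axi (fun y => v y + w y) := by
  intro α y
  simp only [hv α y, hw α y, rot_add]

lemma Axi.sub (hv : Axi v) (hw : Axi w) : Axi (fun y => v y - w y) := by
  intro α y
  simp only [hv α y, hw α y, rot_sub]

lemma Axi.smul (hv : Axi v) (a : ℝ) : Axi (fun y => a • v y) := by
  intro α y
  simp only [hv α y, rot_smul]

lemma Axi.pk (hv : Axi v) (s : ℝ) (n : ℕ) : Axi (pk s v n) := by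
  intro α y
  simp only [Pool.Agent.N976.SC.pk]
  rw [← rot_smul, hv, ← rot_smul]

lemma Axi.fd (hv : Axi v) (hd : Differentiable ℝ v) (α : ℝ) (y h : E3) :
    fderiv ℝ v (rot α y) (rot α h) = rot α (fderiv ℝ v y h) := by
  have h1 : HasFDerivAt (fun z => v (RL α z)) ((fderiv ℝ v (RL α y)).comp (RL α)) y :=
    (hd (RL α y)).hasFDerivAt.comp y (RL α).hasFDerivAt
  have h2 : HasFDerivAt (fun z => RL α (v z)) ((RL α).comp (fderiv ℝ v y)) y :=
    (RL α).hasFDerivAt.comp y (hd y).hasFDerivAt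
  have e : (fun z => v (RL α z)) = fun z => RL α (v z) := by
    ext1 z
    exact hv α z
  rw [e] at h1
  have h3 := h1.unique h2
  exact congrArg (fun L : E3 →L[ℝ] E3 => L h) h3

lemma Axi.adv (hv : Axi v) (hw : Axi w) (hd : Differentiable ℝ w) : Axi (adv v w) := by
  intro α y
  simp only [Pool.Agent.N976.SC.adv]
  rw [hv α y, Axi.fd hw hd]

lemma Axi.LL (hv : Axi v) (hd : Differentiable ℝ v) : Axi (LL v) := by
  intro α y
  simp only [Pool.Agent.N976.AX.T4.LL]
  rw [Am_rot, Axi.fd hv hd, hv α y, Am_rot, rot_add]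

lemma dd_eq (hv : ContDiff ℝ ∞ v) (y e h : E3) :
    fderiv ℝ (fun z => fderiv ℝ v z e) y h = (fderiv ℝ (fderiv ℝ v) y h) e := by
  have h1 : HasFDerivAt (fderiv ℝ v) (fderiv ℝ (fderiv ℝ v) y) y :=
    ((cd_fderiv hv).differentiable (by simp) y).hasFDerivAt
  have h2 : HasFDerivAt (fun z => fderiv ℝ v z e)
      ((ContinuousLinearMap.apply ℝ E3 e).comp (fderiv ℝ (fderiv ℝ v) y)) y :=
    (ContinuousLinearMap.apply ℝ E3 e).hasFDerivAt.comp y h1
  rw [h2.fderiv]
  rfl

lemma Axi.sd (hv : Axi v) (hd : ContDiff ℝ ∞ v) (α : ℝ) (y h k : E3) :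
    (fderiv ℝ (fderiv ℝ v) (rot α y) (rot α h)) (rot α k) =
      rot α ((fderiv ℝ (fderiv ℝ v) y h) k) := by
  have hdf : Differentiable ℝ (fderiv ℝ v) := (cd_fderiv hd).differentiable (by simp)
  have h1 : HasFDerivAt (fun z => fderiv ℝ v (RL α z))
      ((fderiv ℝ (fderiv ℝ v) (RL α y)).comp (RL α)) y :=
    (hdf (RL α y)).hasFDerivAt.comp y (RL α).hasFDerivAt
  have h2 : HasFDerivAt (fun z => fderiv ℝ v (RL α z) (RL α k))
      ((ContinuousLinearMap.apply ℝ E3 (RL α k)).comp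
        ((fderiv ℝ (fderiv ℝ v) (RL α y)).comp (RL α))) y :=
    (ContinuousLinearMap.apply ℝ E3 (RL α k)).hasFDerivAt.comp y h1
  have h3 : HasFDerivAt (fun z => fderiv ℝ v z k)
      ((ContinuousLinearMap.apply ℝ E3 k).comp (fderiv ℝ (fderiv ℝ v) y)) y :=
    (ContinuousLinearMap.apply ℝ E3 k).hasFDerivAt.comp y (hdf y).hasFDerivAt
  have h4 : HasFDerivAt (fun z => RL α (fderiv ℝ v z k))
      ((RL α).comp ((ContinuousLinearMap.apply ℝ E3 k).comp (fderiv ℝ (fderiv ℝ v) y))) y :=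
    (RL α).hasFDerivAt.comp y h3
  have e : (fun z => fderiv ℝ v (RL α z) (RL α k)) = fun z => RL α (fderiv ℝ v z k) := by
    ext1 z
    exact Axi.fd hv (hd.differentiable (by simp)) α z k
  rw [e] at h2
  have h5 := h2.unique h4
  exact congrArg (fun L : E3 →L[ℝ] E3 => L h) h5

lemma rot_bv0 (α : ℝ) : rot α (bv 0) = Real.cos α • bv 0 + Real.sin α • bv 1 := by
  ext i
  fin_cases i <;> simp [rot, bv]

lemma rot_bv1 (α : ℝ) : rot α (bv 1) = (-Real.sin α) • bv 0 + Real.cos α • bv 1 := by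
  ext i
  fin_cases i <;> simp [rot, bv]

lemma rot_bv2 (α : ℝ) : rot α (bv 2) = bv 2 := by
  ext i
  fin_cases i <;> simp [rot, bv]

lemma sum_rot (B : E3 →L[ℝ] E3 →L[ℝ] E3) (α : ℝ) :
    ∑ i : Fin 3, B (rot α (bv i)) (rot α (bv i)) = ∑ i : Fin 3, B (bv i) (bv i) := by
  have hcs : Real.cos α ^ 2 + Real.sin α ^ 2 = 1 := Real.cos_sq_add_sin_sq α
  have hcs' : Real.sin α ^ 2 = 1 - Real.cos α ^ 2 := by linarith
  simp only [Fin.sum_univ_three, rot_bv0, rot_bv1, rot_bv2, map_add, map_smul,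
    add_apply, smul_apply, smul_add, smul_smul]
  have e : ∀ a b c d : E3, (Real.cos α * Real.cos α) • a + (Real.cos α * Real.sin α) • b +
      ((Real.sin α * Real.cos α) • c + (Real.sin α * Real.sin α) • d) +
      ((-Real.sin α * -Real.sin α) • a + (-Real.sin α * Real.cos α) • b +
      ((Real.cos α * -Real.sin α) • c + (Real.cos α * Real.cos α) • d)) = a + d := by
    intro a b c d
    have : Real.sin α * Real.sin α = 1 - Real.cos α * Real.cos α := by nlinarith
    have h2 : -Real.sin α * -Real.sin α = 1 - Real.cos α * Real.cos α := by nlinarith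
    rw [this, h2]
    module
  rw [e (B (bv 0) (bv 0)) (B (bv 1) (bv 0)) (B (bv 0) (bv 1)) (B (bv 1) (bv 1))]

lemma Axi.lap (hv : Axi v) (hd : ContDiff ℝ ∞ v) : Axi (lap v) := by
  intro α y
  simp only [Pool.Agent.N976.SC.lap]
  simp only [dd_eq hd]
  rw [← sum_rot (fderiv ℝ (fderiv ℝ v) (rot α y)) α]
  simp only [Axi.sd hv hd]
  rw [← RL_apply, map_sum]
  rfl

lemma swirl_pk (s : ℝ) (hs : s ≠ 0) (v : E3 → E3) (y : E3) :
    swirl (Pool.Agent.N976.SC.pk s v 1) ((s ^ 2)⁻¹ • y) = s * swirl v y := by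
  simp only [swirl, Pool.Agent.N976.SC.pk]
  have h1 : s ^ (2 * 1) • ((s ^ 2)⁻¹ • y) = y := by
    rw [smul_smul, mul_one, mul_inv_cancel₀ (by positivity), one_smul]
  rw [h1]
  simp only [PiLp.smul_apply, smul_eq_mul]
  field_simp

end Pool.Agent.N976.AX.A4s
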