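import Pool.Agent.N976.AX.Def
import Pool.Agent.N976.SC.T5a

/-!
# The series of axisymmetric packets is axisymmetric
-/

open Set Filter Topology MeasureTheory
open scoped ContDiff

set_option autoImplicit false

namespace Pool.Agent.N976.AX.A5

open Pool.Agent.N976.SC Pool.Agent.N976.AX

/-- the rotation as a continuous linear map -/
noncomputable def rotL (α : ℝ) : E3 →L[ℝ] E3 :=
  LinearMap.toContinuousLinearMap
    { toFun := rot α
      map_add' := fun x y => by
        ext i
        fin_cases i <;> simp [rot] <;> ring
      map_smul' := fun c x => by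
        ext i
        fin_cases i <;> simp [rot] <;> ring }

theorem rotL_apply (α : ℝ) (y : E3) : rotL α y = rot α y := rfl

theorem pk_rot (s : ℝ) (P : E3 → E3) (hP : Axi P) (n : ℕ) (α : ℝ) (y : E3) :
    pk s P n (rot α y) = rot α (pk s P n y) := by
  unfold pk
  have h1 : s ^ (2 * n) • rot α y = rot α (s ^ (2 * n) • y) := by
    rw [← rotL_apply, ← rotL_apply, map_smul]
  rw [h1, hP α, ← rotL_apply, ← rotL_apply, map_smul]

theorem t_AXS : AX.S_AXS := by
  intro s P hs hP hout hax a ha α y
  have h := (t_SER1 s P hs hP hout).1 a ha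
  have h1 := h.2.1 (rot α y)
  have h2 := (h.2.1 y).mapL (rotL α)
  have h3 : (fun n => a n • pk s P n (rot α y)) = fun n => rotL α (a n • pk s P n y) := by
    funext n
    rw [pk_rot s P hax, map_smul, rotL_apply]
  rw [h3] at h1
  exact h1.unique h2

end Pool.Agent.N976.AX.A5
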