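import Pool.Agent.N976.SC.Def2

/-!
# Axisymmetric Navier-Stokes equations with swirl under sparse workless constraints

Axisymmetric version of the building blocks and of the table of the interactions.
-/

open Set Filter Topology MeasureTheory
open scoped ContDiff

set_option autoImplicit false

namespace Pool.Agent.N976.AX

open Pool.Agent.N976.SC

/-- The rotation by the angle `α` about the third axis. -/
noncomputable def rot (α : ℝ) (y : E3) : E3 :=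
  WithLp.toLp 2 ![Real.cos α * y 0 - Real.sin α * y 1, Real.sin α * y 0 + Real.cos α * y 1, y 2]

/-- Axisymmetric fields. -/
def Axi (v : E3 → E3) : Prop := ∀ (α : ℝ) (y : E3), v (rot α y) = rot α (v y)

/-- `r` times the swirl. -/
def swirl (v : E3 → E3) (y : E3) : ℝ := y 0 * v y 1 - y 1 * v y 0

/-- The axisymmetric strain `y ↦ (y₀, y₁, -2 y₂)`. -/
noncomputable def Am (y : E3) : E3 := WithLp.toLp 2 ![y 0, y 1, -2 * y 2]

/-- The two building blocks of the packets: `φ` (without swirl) is odd and equal to `Am` near the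
origin, `ψ` (pure swirl) is even and supported in a shell in which `φ = Am`. -/
structure Pk (φ ψ : E3 → E3) (ρ ρ' : ℝ) : Prop where
  smφ : ContDiff ℝ ∞ φ
  smψ : ContDiff ℝ ∞ ψ
  divφ : ∀ y, divg φ y = 0
  divψ : ∀ y, divg ψ y = 0
  oddφ : ∀ y, φ (-y) = -φ y
  evψ : ∀ y, ψ (-y) = ψ y
  ρ0 : 0 < ρ'
  ρ1 : 2 * ρ' ≤ ρ
  ρ2 : ρ ≤ 1
  outφ : ∀ y, 1 / 2 ≤ ‖y‖ → φ y = 0
  linφ : ∀ y, ‖y‖ < ρ → φ y = Am y
  inψ : ∀ y, ‖y‖ < ρ' → ψ y = 0
  outψ : ∀ y, ρ / 2 ≤ ‖y‖ → ψ y = 0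
  bpos : 0 < -ip (fun y => Am (φ y)) φ
  κpos : 0 < ip (fun y => Am (ψ y)) ψ
  axφ : Axi φ
  axψ : Axi ψ
  swφ : ∀ y, swirl φ y = 0
  swψ : ∃ y, swirl ψ y ≠ 0

/-- (A1) Existence of the building blocks. -/
def S_PK : Prop := ∃ (φ ψ : E3 → E3) (ρ ρ' : ℝ), Pk φ ψ ρ ρ'

/-- (A4) The table, also in pointwise form, with axisymmetric fields. -/
def S_TBA : Prop := ∃ s₀ : ℝ, ∀ s ≥ s₀, ∃ (β lam ζ : ℝ) (P r0 : E3 → E3) (r : Fin 4 → E3 → E3),
  Tbl s (cc s) β lam P (fam s r0 r) ∧ TP s (cc s) β lam ζ P (fam s r0 r) ∧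
  (∀ y, 1 ≤ ‖y‖ → r0 y = 0) ∧ (∀ k y, 1 ≤ ‖y‖ → r k y = 0) ∧
  Axi P ∧ Axi r0 ∧ (∀ k, Axi (r k)) ∧ ∃ y, swirl P y ≠ 0

/-- (A5) The series of axisymmetric packets is axisymmetric. -/
def S_AXS : Prop := ∀ (s : ℝ) (P : E3 → E3), 1 < s → ContDiff ℝ ∞ P →
  (∀ y, 1 / 2 ≤ ‖y‖ → P y = 0) → Axi P → ∀ a, Rap s a → Axi (ser s P a)

end Pool.Agent.N976.AX
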