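import Pool.Agent.N976.SC.T13
import Pool.Agent.N976.AX.A4
import Pool.Agent.N976.AX.A5

/-! The main theorem with axisymmetric fields. -/

open Set Filter Topology MeasureTheory
open scoped ContDiff

set_option autoImplicit false

namespace Pool.Agent.N976.AX

open Pool.Agent.N976.SC
open Pool.Agent.N976.SC.T4 (cd_sm)

lemma rot_smul (α c : ℝ) (y : E3) : rot α (c • y) = c • rot α y := by
  ext i
  fin_cases i <;> simp [rot] <;> ring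

lemma Axi.smul' {v : E3 → E3} (h : Axi v) (c : ℝ) : Axi (fun y => c • v y) := by
  intro α y
  show c • v (rot α y) = rot α (c • v y)
  rw [h α y, rot_smul]

theorem main (hPK : AX.S_PK) (R₀ : ℝ) :
    ∃ (R : ℝ) (P r0 : E3 → E3) (r : Fin 4 → E3 → E3), R₀ ≤ R ∧ 1 < R ∧
      ContDiff ℝ ∞ P ∧ (∀ y, divg P y = 0) ∧ (∀ y, 1 ≤ ‖y‖ → P y = 0) ∧
      ContDiff ℝ ∞ r0 ∧ (∀ y, 1 ≤ ‖y‖ → r0 y = 0) ∧
      (∀ k, ContDiff ℝ ∞ (r k) ∧ ∀ y, 1 ≤ ‖y‖ → r k y = 0) ∧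
      (Axi P ∧ Axi r0 ∧ (∀ k, Axi (r k)) ∧ ∃ y, swirl P y ≠ 0) ∧
      ∀ ν : ℝ, 0 < ν → ∃ (T : ℝ) (u : ℝ → E3 → E3) (l : Option (Fin 4 × ℕ) → ℝ → ℝ),
        0 < T ∧ Sol ν (fld R r0 r) T u ∧
        (∀ y, u 0 y = ν • P y) ∧ (∀ t ∈ Ico 0 T, Axi (u t)) ∧
        ContDiffOn ℝ ∞ (fun z : ℝ × E3 => u z.1 z.2) (Ico 0 T ×ˢ univ) ∧
        (∀ t ∈ Ico 0 T, ∀ y, 1 ≤ ‖y‖ → u t y = 0) ∧
        (∀ i, ContinuousOn (l i) (Ico 0 T)) ∧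
        (∀ k : ℕ, ∀ T' < T, ∃ M, ∀ t ∈ Icc 0 T', ∀ i n, R ^ (k * n) * |l (some (i, n)) t| ≤ M) ∧
        (∀ t ∈ Ico 0 T, ∀ y, HasSum (fun p => l p t • fld R r0 r p y)
          (dt T u t y + adv (u t) (u t) y - ν • lap (u t) y)) ∧
        (∀ (T' : ℝ) (v : ℝ → E3 → E3), 0 < T' → Sol ν (fld R r0 r) T' v → v 0 = u 0 →
          T' ≤ T ∧ ∀ t ∈ Ico 0 T', v t = u t) ∧
        (ContinuousOn (fun t => ip (u t) (u t)) (Ico 0 T) ∧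
          ∀ t ∈ Ioo 0 T, HasDerivAt (fun τ => ip (u τ) (u τ)) (-(2 * (ν * dir (u t)))) t) ∧
        (∀ M : ℝ, ∃ t ∈ Ico 0 T, ∃ y, M < ‖u t y‖) ∧ (∀ M : ℝ, ∃ t ∈ Ico 0 T, M < dir (u t)) ∧
        ∃ X : ℝ, ∀ t ∈ Ico 0 T, ∀ y, (‖y‖ + √(T - t)) * ‖u t y‖ ≤ X := by
  obtain ⟨s₁, hs₁, hcore⟩ := core
  obtain ⟨s₂, htb⟩ := t_TBA hPK
  obtain ⟨s, hs⟩ : ∃ s, s = max (max s₁ s₂) R₀ := ⟨_, rfl⟩
  have hss1 : s₁ ≤ s := by rw [hs]; exact (le_max_left _ _).trans (le_max_left _ _)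
  have hss2 : s₂ ≤ s := by rw [hs]; exact (le_max_right _ _).trans (le_max_left _ _)
  have hsR : R₀ ≤ s := by rw [hs]; exact le_max_right _ _
  have hs120 : 120 ≤ s := hs₁.trans hss1
  have hs0 : 0 < s := by linarith
  have hs1 : 1 < s := by linarith
  obtain ⟨β, lam, ζ, Q, r0, r, hT, hTP, hr0, hrk, hAQ, hAr0, hAr, hsw⟩ := htb s hss2
  have hQd : Differentiable ℝ Q := hT.sm.differentiable (by simp)
  have hβ := hT.β0
  have hlam := hT.lam0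
  obtain ⟨c, hc⟩ : ∃ c, c = 5 / 3 * lam * s ^ 4 / β := ⟨_, rfl⟩
  have hc0 : c ≠ 0 := by rw [hc]; positivity
  refine ⟨s ^ 2, fun y => c • Q y, r0, r, by nlinarith, by nlinarith,
    cd_sm hT.sm _, divg_smul' hQd hT.div c, ?_, hT.rsm none, hr0, ?_,
    ⟨hAQ.smul' c, hAr0, hAr, ?_⟩, ?_⟩
  · intro y hy
    simp only [hT.out y (by linarith), smul_zero]
  · intro k
    have h3 := hT.rsm (some (k, 0))
    have e : fam s r0 r (some (k, 0)) = r k := by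
      ext1 y
      simp [fam]
    rw [e] at h3
    exact ⟨h3, hrk k⟩
  · obtain ⟨y, hy⟩ := hsw
    refine ⟨y, ?_⟩
    have e : swirl (fun y => c • Q y) y = c * swirl Q y := by
      unfold swirl
      simp only [PiLp.smul_apply, smul_eq_mul]
      ring
    rw [e]
    exact mul_ne_zero hc0 hy
  intro ν hν
  obtain ⟨T, u, X, l, h⟩ := hcore s hss1 β lam ζ Q r0 r hT hTP hr0 hrk ν hν
  refine ⟨T, u, l, h.T0, h.sol, ?_, ?_, h.sm, fun t ht y hy => h.out t ht y (by linarith), h.lc,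
    ?_, h.lsum, h.uni, h.en, h.blow, h.enst, h.ty⟩
  · intro y
    rw [h.ini, mul_smul, hc]
  · intro t ht
    rw [h.form t ht]
    refine A5.t_AXS s Q hs1 hT.sm hT.out hAQ _ ?_
    intro k
    obtain ⟨M, hM⟩ := h.rap k t ht.2
    exact ⟨M, fun n => hM t ⟨ht.1, le_rfl⟩ n⟩
  · intro k T' hT'
    obtain ⟨M, hM⟩ := h.lr (2 * k) T' hT'
    refine ⟨M, fun t ht i n => ?_⟩
    have e : (s ^ 2) ^ (k * n) = s ^ (2 * k * n) := by rw [← pow_mul]; congr 1; ring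
    rw [e]
    exact hM t ht i n

end Pool.Agent.N976.AX
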